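import Pool.Agent.Lib.MP_6bc78b_nt.MS.GL.Iface

/-! Project MS, Part GL, module ERI: the mean of the error integral. -/

set_option autoImplicit false

open Complex Filter Topology MeasureTheory

namespace Pool.Agent.Lib.MP_6bc78b_nt.MS.GL.H81

open Pool.Agent.Lib.MP_6bc78b_nt.MS Pool.Agent.Lib.MP_6bc78b_nt.MS.P1
open Pool.Agent.Lib.MP_6bc78b_nt.MS.QZ Pool.Agent.Lib.MP_6bc78b_nt.MS.GL

lemma inv_cosh_le (x : ℝ) : 1 / Real.cosh x ≤ 2 * Real.exp (-x) := by
  have h1 : 0 < Real.cosh x := Real.cosh_pos x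
  rw [div_le_iff₀ h1, Real.cosh_eq]
  have h2 : Real.exp (-x) * Real.exp x = 1 := by rw [← Real.exp_add]; simp
  nlinarith [Real.exp_pos (-x), Real.exp_pos x]

lemma int_exp_le {a b l : ℝ} (ha : 0 ≤ a) (hl : 0 < l) :
    ∫ δ in a..b, 2 * Real.exp (-(δ * l)) ≤ 2 / l := by
  have hd : ∀ δ ∈ Set.uIcc a b, HasDerivAt (fun δ : ℝ => -(2 / l) * Real.exp (-(δ * l)))
      (2 * Real.exp (-(δ * l))) δ := by
    intro δ _
    have h1 : HasDerivAt (fun δ : ℝ => -(δ * l)) (-(1 * l)) δ :=
      ((hasDerivAt_id δ).mul_const l).neg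
    have h2 := (h1.exp).const_mul (-(2 / l))
    refine h2.congr_deriv ?_
    field_simp
  rw [intervalIntegral.integral_eq_sub_of_hasDerivAt hd
    (Continuous.intervalIntegrable (by fun_prop) _ _)]
  have h3 : Real.exp (-(a * l)) ≤ 1 := by
    rw [Real.exp_le_one_iff]
    have := mul_nonneg ha hl.le
    linarith
  have h4 := Real.exp_pos (-(b * l))
  have h5 : 0 < 2 / l := by positivity
  nlinarith

/-- module ERI -/
theorem eri (h1 : MpdStatement) (h2 : Lx1Statement) (h3 : ZfacStatement) : EriStatement := by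
  classical
  obtain ⟨-, -, -, -, -, -, hfin⟩ := h3
  intro lam K hlam hlam1 hK
  obtain ⟨C, T1, hC, hT1, h⟩ := h1 lam hlam hlam1
  have hK0 : 0 < K := lt_of_lt_of_le (by positivity) hK
  refine ⟨2 * C / lam, max T1 (Real.exp (2 * K)), by positivity, lt_max_of_lt_left hT1, ?_⟩
  intro T hT
  have hT1' : T1 ≤ T := (le_max_left _ _).trans hT
  have hT3 : 3 < T := lt_of_lt_of_le hT1 hT1'
  have hL : 2 * K ≤ Real.log T := by
    rw [Real.le_log_iff_exp_le (by linarith)]
    exact (le_max_right _ _).trans hT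
  have hL0 : 0 < Real.log T := by linarith
  have hd0 : 0 < K / Real.log T := div_pos hK0 hL0
  have hd1 : K / Real.log T < 3 / 4 := by
    rw [div_lt_iff₀ hL0]
    linarith
  set d : ℝ := K / Real.log T with hd
  set l : ℝ := lam * Real.log T with hl
  have hl0 : 0 < l := mul_pos hlam hL0
  set P : ℝ := cG T * Real.log T with hP
  have hP0 : 0 < P := by
    have : 0 < DD T := div_pos (by linarith) (Real.rpow_pos_of_pos hL0 _)
    have h2 : 0 < Real.sqrt Real.pi := Real.sqrt_pos.2 Real.pi_pos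
    rw [hP]
    unfold cG
    positivity
  have hf := hfin T
  have hcont : ∀ γ : ℝ, ContinuousOn (fun δ => PD δ γ / Real.cosh (δ * l)) (Set.Icc d (3 / 4)) := by
    intro γ
    refine ContinuousOn.div (h2 γ d hd0 hd1).1 (by fun_prop) fun δ _ => (Real.cosh_pos _).ne'
  have hint : ∀ γ : ℝ, IntervalIntegrable (fun δ => PD δ γ / Real.cosh (δ * l)) volume d (3 / 4) :=
    fun γ => (hcont γ).intervalIntegrable_of_Icc hd1.le
  rw [finsum_mem_eq_finite_toFinset_sum _ hf]
  have e1 : ∑ γ ∈ hf.toFinset, (mz γ : ℝ) * wt T γ *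
      (∫ δ in d..(3 / 4), PD δ γ / Real.cosh (δ * l)) =
      ∫ δ in d..(3 / 4), ∑ γ ∈ hf.toFinset, (mz γ : ℝ) * wt T γ *
        (PD δ γ / Real.cosh (δ * l)) := by
    rw [intervalIntegral.integral_finsetSum fun γ _ => (hint γ).const_mul _]
    refine Finset.sum_congr rfl fun γ _ => ?_
    rw [intervalIntegral.integral_const_mul]
  rw [e1]
  have e2 : ∫ δ in d..(3 / 4), ∑ γ ∈ hf.toFinset, (mz γ : ℝ) * wt T γ *
        (PD δ γ / Real.cosh (δ * l)) ≤
      ∫ δ in d..(3 / 4), C * P * Real.log T * (2 * Real.exp (-(δ * l))) := by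
    apply intervalIntegral.integral_mono_on hd1.le
    · have := IntervalIntegrable.sum hf.toFinset (f := fun γ δ => (mz γ : ℝ) * wt T γ * (PD δ γ / Real.cosh (δ * l))) fun γ _ => (hint γ).const_mul _
      simpa [Finset.sum_fn] using this
    · exact Continuous.intervalIntegrable (by fun_prop) _ _
    · intro δ hδ
      have h4 : 4 / (lam * Real.log T) ≤ δ := by
        refine le_trans ?_ hδ.1
        rw [hd, div_le_div_iff₀ hl0 hL0, hl]
        have h5 : 4 ≤ K * lam := by
          rwa [div_le_iff₀ hlam] at hK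
        nlinarith
      have h5 := h T hT1' δ h4 hδ.2
      rw [finsum_mem_eq_finite_toFinset_sum _ hf] at h5
      have e3 : ∑ γ ∈ hf.toFinset, (mz γ : ℝ) * wt T γ * (PD δ γ / Real.cosh (δ * l)) =
          (∑ γ ∈ hf.toFinset, (mz γ : ℝ) * wt T γ * PD δ γ) * (1 / Real.cosh (δ * l)) := by
        rw [Finset.sum_mul]
        refine Finset.sum_congr rfl fun γ _ => ?_
        ring
      rw [e3]
      have h6 : 0 ≤ 1 / Real.cosh (δ * l) := by
        have := Real.cosh_pos (δ * l)
        positivity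
      refine (mul_le_mul_of_nonneg_right h5 h6).trans ?_
      exact mul_le_mul_of_nonneg_left (inv_cosh_le _) (by positivity)
  refine e2.trans ?_
  rw [intervalIntegral.integral_const_mul]
  have h7 := int_exp_le (a := d) (b := 3 / 4) hd0.le hl0
  have h8 : 0 ≤ C * P * Real.log T := by positivity
  refine (mul_le_mul_of_nonneg_left h7 h8).trans (le_of_eq ?_)
  rw [hl]
  field_simp

end Pool.Agent.Lib.MP_6bc78b_nt.MS.GL.H81
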