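import Pool.Agent.Lib.MP_6bc78b_nt.MS.GL.H81.Tools

/-! Project MS, Part GL, module FGB (helper81): the lower bound in every interval. -/

set_option autoImplicit false

open Complex Filter Topology MeasureTheory ArithmeticFunction

namespace Pool.Agent.Lib.MP_6bc78b_nt.MS.GL.H81

open Pool.Agent.Lib.MP_6bc78b_nt Pool.Agent.Lib.MP_6bc78b_nt.MS
  Pool.Agent.Lib.MP_6bc78b_nt.MS.P1 Pool.Agent.Lib.MP_6bc78b_nt.MS.QZ
  Pool.Agent.Lib.MP_6bc78b_nt.MS.GL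

/-- covering of a finite set by three finite sets -/
lemma cover3 {S H F B : Set ℝ} {f g : ℝ → ℝ} (hS : S.Finite) (hH : H.Finite) (hF : F.Finite)
    (hB : B.Finite) (hsub : S ⊆ H ∪ F ∪ B) (hf : ∀ γ, 0 ≤ f γ)
    (hg : ∀ γ ∈ F, f γ ≤ g γ) :
    ∑ᶠ γ ∈ S, f γ ≤ ∑ᶠ γ ∈ H, f γ + ∑ᶠ γ ∈ F, g γ + ∑ᶠ γ ∈ B, f γ := by
  classical
  have h1 : ∑ᶠ γ ∈ F, f γ ≤ ∑ᶠ γ ∈ F, g γ := by
    rw [finsum_mem_eq_finite_toFinset_sum _ hF, finsum_mem_eq_finite_toFinset_sum _ hF]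
    exact Finset.sum_le_sum fun γ hγ => hg γ (by simpa using hγ)
  have h2 : ∑ᶠ γ ∈ S, f γ ≤ ∑ᶠ γ ∈ H, f γ + ∑ᶠ γ ∈ F, f γ + ∑ᶠ γ ∈ B, f γ := by
    rw [finsum_mem_eq_finite_toFinset_sum _ hS, finsum_mem_eq_finite_toFinset_sum _ hH,
      finsum_mem_eq_finite_toFinset_sum _ hF, finsum_mem_eq_finite_toFinset_sum _ hB]
    have hsub' : hS.toFinset ⊆ (hH.toFinset ∪ hF.toFinset) ∪ hB.toFinset := by
      intro γ hγ
      have := hsub (by simpa using hγ)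
      simpa [or_assoc] using this
    refine (Finset.sum_le_sum_of_subset_of_nonneg hsub' fun γ _ _ => hf γ).trans ?_
    have a1 := Finset.sum_union_inter (s₁ := hH.toFinset ∪ hF.toFinset) (s₂ := hB.toFinset)
      (f := f)
    have a2 := Finset.sum_union_inter (s₁ := hH.toFinset) (s₂ := hF.toFinset) (f := f)
    have a3 : 0 ≤ ∑ γ ∈ (hH.toFinset ∪ hF.toFinset) ∩ hB.toFinset, f γ :=
      Finset.sum_nonneg fun γ _ => hf γ
    have a4 : 0 ≤ ∑ γ ∈ hH.toFinset ∩ hF.toFinset, f γ :=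
      Finset.sum_nonneg fun γ _ => hf γ
    linarith
  linarith

/-- `√(ll T) ≤ 2 √(ll T / 2)` -/
lemma sqrt_ll (T : ℝ) : Real.sqrt (ll T) ≤ 2 * Real.sqrt (ll T / 2) := by
  by_cases h : 0 ≤ ll T
  · rw [Real.sqrt_le_left (by positivity), mul_pow, Real.sq_sqrt (by linarith)]
    linarith
  · rw [Real.sqrt_eq_zero_of_nonpos (by linarith)]
    positivity

/-- module FGB -/
theorem fgb (h1 : FarStatement) (h2 : SepStatement) (h3 : CmpStatement) (h4 : SplStatement)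
    (h5 : CnlStatement) (h6 : DhzStatement) (h7 : ZfacStatement) (h8 : QsyStatement)
    (h9 : QfcStatement) : FgbStatement := by
  classical
  have hZ := h7
  obtain ⟨z1, z2, z3, z4, z5, z6, z7⟩ := h7
  intro a b ε hab hε
  by_cases hq0 : 2 / 3 * (Qf a - Qf b) - ε / 2 ≤ 0
  · refine ⟨0, fun T _ => ?_⟩
    have h10 : (2 / 3 * (Qf a - Qf b) - ε) * NZ T ≤ 0 :=
      mul_nonpos_of_nonpos_of_nonneg (by linarith) (NZ_nonneg T)
    exact h10.trans (Nat.cast_nonneg _)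
  rw [not_le] at hq0
  -- parameters
  obtain ⟨η, hη0, hη1, hη2⟩ : ∃ η : ℝ, 0 < η ∧ η ≤ ε / 8 ∧ 4 * η ≤ b - a := by
    refine ⟨min (ε / 8) ((b - a) / 4), by
      apply lt_min <;> linarith, min_le_left _ _, ?_⟩
    have := min_le_right (ε / 8) ((b - a) / 4)
    linarith
  set e2 : ℝ := η / 4 with he2
  have he20 : 0 < e2 := by positivity
  set a' : ℝ := -b + η with ha'
  set b' : ℝ := -a - η with hb'
  have hab' : a' < b' := by rw [ha', hb']; linarith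
  have hQ : Qf a - Qf b - 2 * η ≤ Qf a' - Qf b' := by
    have q1 := (h9 (-b) a' (by rw [ha']; linarith)).2.2.1
    have q2 := (h9 b' (-a) (by rw [hb']; linarith)).2.2.1
    have q3 := (h8 a b hab.le).1
    have q4 : a' - -b = η := by rw [ha']; ring
    have q5 : -a - b' = η := by rw [hb']; ring
    linarith
  obtain ⟨c, hc0, hc1, hS⟩ := h2 a' b' (ε / 8) hab' (by positivity)
  obtain ⟨A, hA, hF⟩ := h1 (ε / 8) (by positivity)
  have hB := h3 c e2 hc0 hc1 he20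
  set D : ℝ → ℝ → ℝ := fun T γ => Real.log ‖deriv riemannZeta (1 / 2 + γ * I)‖ -
    Real.log (Real.log T) - (P0 T γ).re with hD
  set H : ℝ → Set ℝ := fun T => {γ | (γ ∈ zset T ∧ |γ - T| ≤ A * DD T) ∧
    (a' < X0 T γ ∧ X0 T γ ≤ b' ∧ nC c T γ = 1) ∧ |D T γ| ≤ e2 * Real.sqrt (ll T)} with hH
  have hev : ∀ᶠ T : ℝ in atTop, H T ⊆ {γ : ℝ | γ ∈ zset T ∧ |γ - T| ≤ A * DD T} ∧
      (2 / 3 * (Qf a - Qf b) - ε / 2) * (cG T * Real.log T) ≤
        ∑ᶠ γ ∈ H T, (fun _ => (1 : ℝ)) γ * wt T γ := by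
    filter_upwards [hS, hF, hB, eventually_gt_atTop 1] with T hT1 hT2 hT3 hT4
    refine ⟨fun γ hγ => hγ.1, ?_⟩
    have hp : 0 < cG T * Real.log T := mul_pos (cG_pos hT4) (Real.log_pos hT4)
    have f0 : (zset T).Finite := z7 T
    have e1 := cover3 (S := {γ | γ ∈ zset T ∧ a' < X0 T γ ∧ X0 T γ ≤ b' ∧ nC c T γ = 1})
      (H := H T) (F := {γ | γ ∈ zset T ∧ A * DD T < |γ - T|})
      (B := {γ | γ ∈ zset T ∧ nC c T γ = 1 ∧ e2 * Real.sqrt (ll T) < |D T γ|})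
      (f := fun γ => wt T γ) (g := fun γ => (mz γ : ℝ) * wt T γ)
      (f0.subset fun γ hγ => hγ.1) (f0.subset fun γ hγ => hγ.1.1)
      (f0.subset fun γ hγ => hγ.1) (f0.subset fun γ hγ => hγ.1) ?_
      (fun γ => (wt_pos T γ).le) ?_
    · simp only [one_mul]
      have hη3 : ε / 8 * (cG T * Real.log T) ≥ η * (cG T * Real.log T) :=
        mul_le_mul_of_nonneg_right hη1 hp.le
      have hQ2 := mul_le_mul_of_nonneg_right hQ hp.le
      have hT3' : ∑ᶠ γ ∈ {γ | γ ∈ zset T ∧ nC c T γ = 1 ∧ e2 * Real.sqrt (ll T) < |D T γ|},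
        wt T γ ≤ e2 * (cG T * Real.log T) := hT3
      have hT1' : (2 / 3 * (Qf a' - Qf b') - ε / 8) * (cG T * Real.log T) ≤
        ∑ᶠ γ ∈ {γ | γ ∈ zset T ∧ a' < X0 T γ ∧ X0 T γ ≤ b' ∧ nC c T γ = 1}, wt T γ := hT1
      have hT2' : ∑ᶠ γ ∈ {γ | γ ∈ zset T ∧ A * DD T < |γ - T|}, (mz γ : ℝ) * wt T γ ≤
        ε / 8 * (cG T * Real.log T) := hT2
      have he2P : e2 * (cG T * Real.log T) = η / 4 * (cG T * Real.log T) := by rw [he2]
      have h13 : 0 ≤ ε * (cG T * Real.log T) := by positivity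
      linarith
    · rintro γ ⟨g1, g2, g3, g4⟩
      by_cases c1 : A * DD T < |γ - T|
      · exact Or.inl (Or.inr ⟨g1, c1⟩)
      · by_cases c2 : e2 * Real.sqrt (ll T) < |D T γ|
        · exact Or.inr ⟨g1, g4, c2⟩
        · exact Or.inl (Or.inl ⟨⟨g1, not_lt.1 c1⟩, ⟨g2, g3, g4⟩, not_lt.1 c2⟩)
    · rintro γ ⟨g1, g2⟩
      have hm : (1 : ℝ) ≤ mz γ := by exact_mod_cast z3 γ g1.2.2
      nlinarith [wt_pos T γ]
  obtain ⟨X1, hX1, hup⟩ := yz_up (x := b) (x' := b - η / 2) (by linarith)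
  obtain ⟨X2, hX2, hlow⟩ := yz_low (x := a) (x' := a + η / 2) (by linarith)
  obtain ⟨T0, hT0⟩ := h5 (2 / 3 * (Qf a - Qf b) - ε / 2) A (ε / 2) (fun _ => 1) H hq0 hA
    (by positivity) (fun _ => zero_le_one) hev (max X1 X2)
  refine ⟨T0, fun T hT => ?_⟩
  obtain ⟨hfin, hle⟩ := hT0 T hT
  have hle2 : (2 / 3 * (Qf a - Qf b) - ε) * NZ T ≤ ((SH H A (max X1 X2) T).ncard : ℝ) := by
    have e3 : ∑ᶠ γ ∈ SH H A (max X1 X2) T, (fun _ => (1 : ℝ)) γ =
        ((SH H A (max X1 X2) T).ncard : ℝ) := by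
      rw [finsum_mem_eq_finite_toFinset_sum _ hfin, Finset.sum_const, nsmul_eq_mul, mul_one,
        Set.ncard_eq_toFinset_card _ hfin]
    rw [e3] at hle
    have e4 : (2 / 3 * (Qf a - Qf b) - ε) * NZ T =
      (2 / 3 * (Qf a - Qf b) - ε / 2 - ε / 2) * NZ T := by ring
    rw [e4]
    exact hle
  refine hle2.trans ?_
  have hfin2 : {γ : ℝ | 3 < γ ∧ γ ≤ T ∧ hardyZ γ = 0 ∧ deriv hardyZ γ ≠ 0 ∧ a < YZ γ ∧
      YZ γ < b}.Finite :=
    (z6 T).subset fun γ hγ => ⟨by linarith [hγ.1], hγ.2.1, (z1 γ).1 hγ.2.2.1⟩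
  have hsub : SH H A (max X1 X2) T ⊆ {γ : ℝ | 3 < γ ∧ γ ≤ T ∧ hardyZ γ = 0 ∧
      deriv hardyZ γ ≠ 0 ∧ a < YZ γ ∧ YZ γ < b} := by
    rintro γ ⟨g1, T', g2, g3, g4, g5⟩
    obtain ⟨-, ⟨k1, k2, k3⟩, k4⟩ := g3
    have hT'1 : X1 ≤ T' := (le_max_left _ _).trans g2
    have hT'2 : X2 ≤ T' := (le_max_right _ _).trans g2
    have hT'3 : 40 ≤ T' := hX1.trans hT'1
    have hlog : 1 < Real.log T' := by
      rw [Real.lt_log_iff_exp_lt (by linarith)]
      exact Real.exp_one_lt_d9.trans (by linarith)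
    have hm : mz γ = 1 := (h4 c 1 T' γ hc0 hc1.le le_rfl (by linarith) (by
      rw [div_lt_one (by linarith)]
      exact hlog) g4 k3).1
    obtain ⟨d1, d2⟩ := deriv_ne hZ g4.2.2 hm
    have hz : 0 < |deriv hardyZ γ| := abs_pos.2 d2
    have hzz := h6 γ d1
    set t := Real.sqrt (ll T' / 2) with ht
    have ht0 : 0 < t := by
      obtain ⟨g1', g2', g3', g4', g5', g6'⟩ : True ∧ True ∧ True ∧ True ∧ True ∧ 0 < t := by
        refine ⟨trivial, trivial, trivial, trivial, trivial, ?_⟩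
        rw [ht]
        apply Real.sqrt_pos.2
        have : 0 < Real.log (Real.log T') := Real.log_pos hlog
        have h7 : ll T' = Real.log (Real.log T') := rfl
        rw [h7]
        linarith
      exact g6'
    have hP : (P0 T' γ).re = -(X0 T' γ) * t := by
      have : X0 T' γ = -(P0 T' γ).re / t := rfl
      rw [this, neg_div, neg_neg, div_mul_cancel₀ _ ht0.ne']
    have hk4 := abs_le.1 k4
    have hsq := sqrt_ll T'
    have hsq2 : e2 * Real.sqrt (ll T') ≤ e2 * (2 * t) := mul_le_mul_of_nonneg_left hsq he20.le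
    have hDe : D T' γ = Real.log |deriv hardyZ γ| - Real.log (Real.log T') + X0 T' γ * t := by
      simp only [hD]
      rw [hP, ← hzz]
      ring
    have hX3 : -X0 T' γ * t ≤ (b - η) * t := by
      apply mul_le_mul_of_nonneg_right _ ht0.le
      rw [ha'] at k1
      linarith
    have hX4 : (a + η) * t ≤ -X0 T' γ * t := by
      apply mul_le_mul_of_nonneg_right _ ht0.le
      rw [hb'] at k2
      linarith
    have he3 : e2 * (2 * t) = η / 2 * t := by rw [he2]; ring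
    refine ⟨by linarith [g4.1], g1, d1, d2, ?_, ?_⟩
    · refine hlow T' γ _ hT'2 g4.1 g4.2.1 hz ?_
      rw [hDe] at hk4
      have : (a + η / 2) * t = (a + η) * t - η / 2 * t := by ring
      rw [this]
      linarith [hk4.1]
    · refine hup T' γ _ hT'1 g4.1 g4.2.1 hz ?_
      rw [hDe] at hk4
      have : (b - η / 2) * t = (b - η) * t + η / 2 * t := by ring
      rw [this]
      linarith [hk4.2]
  exact_mod_cast Set.ncard_le_ncard hsub hfin2

end Pool.Agent.Lib.MP_6bc78b_nt.MS.GL.H81
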