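import Pool.Agent.Lib.MP_6bc78b_nt.MS.GL.H81.Fgb

/-! Project MS, Part GL, module FGU (helper81): the upper bound for the upper tail. -/

set_option autoImplicit false

open Complex Filter Topology MeasureTheory ArithmeticFunction

namespace Pool.Agent.Lib.MP_6bc78b_nt.MS.GL.H81

open Pool.Agent.Lib.MP_6bc78b_nt Pool.Agent.Lib.MP_6bc78b_nt.MS
  Pool.Agent.Lib.MP_6bc78b_nt.MS.P1 Pool.Agent.Lib.MP_6bc78b_nt.MS.QZ
  Pool.Agent.Lib.MP_6bc78b_nt.MS.GL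

/-- the number of zeros as a sum of `mz` -/
lemma NZ_eq (hZ : ZfacStatement) (T : ℝ) :
    NZ T = ∑ᶠ γ ∈ {γ : ℝ | 0 < γ ∧ γ ≤ T ∧ riemannZeta (1 / 2 + γ * I) = 0}, (mz γ : ℝ) := by
  obtain ⟨z1, z2, -⟩ := hZ
  have e : {γ : ℝ | 0 < γ ∧ γ ≤ T ∧ hardyZ γ = 0} =
      {γ : ℝ | 0 < γ ∧ γ ≤ T ∧ riemannZeta (1 / 2 + γ * I) = 0} := by
    ext γ
    simp only [Set.mem_setOf_eq, z1]
  unfold NZ
  rw [e]
  refine finsum_mem_congr rfl fun γ hγ => ?_
  rw [z2 γ hγ.2.2]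

/-- module FGU -/
theorem fgu (h1 : FarStatement) (h2 : LitStatement) (h3 : CmuStatement)
    (h5 : CnlStatement) (h6 : DhzStatement) (h7 : ZfacStatement)
    (h9 : QfcStatement) : FguStatement := by
  classical
  have hZ := h7
  obtain ⟨z1, z2, z3, z4, z5, z6, z7⟩ := h7
  intro x ε hε
  -- the trivial case
  have htriv : ∀ T : ℝ, ({γ : ℝ | 3 < γ ∧ γ ≤ T ∧ hardyZ γ = 0 ∧ deriv hardyZ γ ≠ 0 ∧
      x < YZ γ}.ncard : ℝ) ≤ NZ T := by
    intro T
    have f6 := z6 T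
    have hsub : {γ : ℝ | 3 < γ ∧ γ ≤ T ∧ hardyZ γ = 0 ∧ deriv hardyZ γ ≠ 0 ∧ x < YZ γ} ⊆
        {γ : ℝ | 0 < γ ∧ γ ≤ T ∧ riemannZeta (1 / 2 + γ * I) = 0} :=
      fun γ hγ => ⟨by linarith [hγ.1], hγ.2.1, (z1 γ).1 hγ.2.2.1⟩
    have h10 : ({γ : ℝ | 3 < γ ∧ γ ≤ T ∧ hardyZ γ = 0 ∧ deriv hardyZ γ ≠ 0 ∧
        x < YZ γ}.ncard : ℝ) ≤
        ({γ : ℝ | 0 < γ ∧ γ ≤ T ∧ riemannZeta (1 / 2 + γ * I) = 0}.ncard : ℝ) := by
      exact_mod_cast Set.ncard_le_ncard hsub f6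
    refine h10.trans ?_
    rw [NZ_eq hZ T, finsum_mem_eq_finite_toFinset_sum _ f6, Set.ncard_eq_toFinset_card _ f6,
      Finset.card_eq_sum_ones, Nat.cast_sum]
    refine Finset.sum_le_sum fun γ hγ => ?_
    have hγ' : 0 < γ ∧ γ ≤ T ∧ riemannZeta (1 / 2 + γ * I) = 0 := by simpa using hγ
    exact_mod_cast z3 γ hγ'.2.2
  by_cases hq0 : 1 - Qf x - ε / 2 ≤ 0
  · refine ⟨0, fun T _ => (htriv T).trans ?_⟩
    have h10 := NZ_nonneg T
    have h11 : 1 * NZ T ≤ (Qf x + ε) * NZ T :=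
      mul_le_mul_of_nonneg_right (by linarith) h10
    linarith
  rw [not_le] at hq0
  -- parameters
  set η : ℝ := ε / 16 with hη
  have hη0 : 0 < η := by positivity
  set e2 : ℝ := η / 2 with he2
  have he20 : 0 < e2 := by positivity
  set w : ℝ := -(x - 2 * η) with hw
  have hQ : 1 - Qf x - 2 * η ≤ Qf w := by
    have q1 := (h9 (x - 2 * η) x (by linarith)).2.2.1
    rw [hw, Qf_neg]
    linarith
  obtain ⟨A, hA, hF⟩ := h1 η hη0
  have hL := h2 w η hη0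
  have hB := h3 e2 he20
  set D : ℝ → ℝ → ℝ := fun T γ => Real.log ‖deriv riemannZeta (1 / 2 + γ * I)‖ -
    Real.log (Real.log T) with hD
  set H : ℝ → Set ℝ := fun T => {γ | (γ ∈ zset T ∧ |γ - T| ≤ A * DD T) ∧
    (mz γ = 1 → D T γ ≤ (x - η) * Real.sqrt (ll T / 2))} with hH
  have hev : ∀ᶠ T : ℝ in atTop, H T ⊆ {γ : ℝ | γ ∈ zset T ∧ |γ - T| ≤ A * DD T} ∧
      (1 - Qf x - ε / 2) * (cG T * Real.log T) ≤
        ∑ᶠ γ ∈ H T, (fun γ => (mz γ : ℝ)) γ * wt T γ := by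
    filter_upwards [hL, hF, hB, eventually_gt_atTop 3] with T hT1 hT2 hT3 hT4
    refine ⟨fun γ hγ => hγ.1, ?_⟩
    have hp : 0 < cG T * Real.log T :=
      mul_pos (cG_pos (by linarith)) (Real.log_pos (by linarith))
    have f0 : (zset T).Finite := z7 T
    set t := Real.sqrt (ll T / 2) with ht
    have ht0 : 0 < t := by
      rw [ht]
      apply Real.sqrt_pos.2
      have h11 : 1 < Real.log T := by
        rw [Real.lt_log_iff_exp_lt (by linarith)]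
        exact Real.exp_one_lt_d9.trans (by linarith)
      have h12 : 0 < Real.log (Real.log T) := Real.log_pos h11
      have h13 : ll T = Real.log (Real.log T) := rfl
      rw [h13]
      linarith
    have e1 := cover3 (S := {γ | γ ∈ zset T ∧ w < X0 T γ})
      (H := H T) (F := {γ | γ ∈ zset T ∧ A * DD T < |γ - T|})
      (B := {γ | γ ∈ zset T ∧ mz γ = 1 ∧ e2 * Real.sqrt (ll T) < D T γ - (P0 T γ).re})
      (f := fun γ => (mz γ : ℝ) * wt T γ) (g := fun γ => (mz γ : ℝ) * wt T γ)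
      (f0.subset fun γ hγ => hγ.1) (f0.subset fun γ hγ => hγ.1.1)
      (f0.subset fun γ hγ => hγ.1) (f0.subset fun γ hγ => hγ.1) ?_
      (fun γ => mul_nonneg (Nat.cast_nonneg _) (wt_pos T γ).le) (fun γ _ => le_rfl)
    · have hT3' : ∑ᶠ γ ∈ {γ | γ ∈ zset T ∧ mz γ = 1 ∧ e2 * Real.sqrt (ll T) <
          D T γ - (P0 T γ).re}, wt T γ ≤ e2 * (cG T * Real.log T) := hT3
      have hT3'' : ∑ᶠ γ ∈ {γ | γ ∈ zset T ∧ mz γ = 1 ∧ e2 * Real.sqrt (ll T) <
          D T γ - (P0 T γ).re}, (mz γ : ℝ) * wt T γ ≤ e2 * (cG T * Real.log T) := by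
        refine le_trans (le_of_eq ?_) hT3'
        refine finsum_mem_congr rfl fun γ hγ => ?_
        have hγ' : mz γ = 1 := hγ.2.1
        rw [hγ', Nat.cast_one, one_mul]
      have hT0' : |∑ᶠ γ ∈ {γ | γ ∈ zset T ∧ w < X0 T γ}, (mz γ : ℝ) * wt T γ -
        Qf w * (cG T * Real.log T)| ≤ η * (cG T * Real.log T) := hT1
      have hT1' := (abs_le.1 hT0').1
      have hT1'' : Qf w * (cG T * Real.log T) - η * (cG T * Real.log T) ≤
          ∑ᶠ γ ∈ {γ | γ ∈ zset T ∧ w < X0 T γ}, (mz γ : ℝ) * wt T γ := by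
        linarith
      have hT2' : ∑ᶠ γ ∈ {γ | γ ∈ zset T ∧ A * DD T < |γ - T|}, (mz γ : ℝ) * wt T γ ≤
        η * (cG T * Real.log T) := hT2
      have hQ2 := mul_le_mul_of_nonneg_right hQ hp.le
      have he2P : e2 * (cG T * Real.log T) = ε / 32 * (cG T * Real.log T) := by
        rw [he2, hη]; ring
      have hηP : η * (cG T * Real.log T) = ε / 16 * (cG T * Real.log T) := by rw [hη]
      have h13 : 0 ≤ ε * (cG T * Real.log T) := by positivity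
      linarith
    · rintro γ ⟨g1, g2⟩
      by_cases c1 : A * DD T < |γ - T|
      · exact Or.inl (Or.inr ⟨g1, c1⟩)
      by_cases c2 : mz γ = 1 ∧ e2 * Real.sqrt (ll T) < D T γ - (P0 T γ).re
      · exact Or.inr ⟨g1, c2⟩
      refine Or.inl (Or.inl ⟨⟨g1, not_lt.1 c1⟩, fun hm => ?_⟩)
      have c3 : D T γ - (P0 T γ).re ≤ e2 * Real.sqrt (ll T) := by
        by_contra h
        exact c2 ⟨hm, not_le.1 h⟩
      have hP : (P0 T γ).re = -(X0 T γ) * t := by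
        have : X0 T γ = -(P0 T γ).re / t := rfl
        rw [this, neg_div, neg_neg, div_mul_cancel₀ _ ht0.ne']
      have hsq2 : e2 * Real.sqrt (ll T) ≤ e2 * (2 * t) :=
        mul_le_mul_of_nonneg_left (sqrt_ll T) he20.le
      have hX : -X0 T γ * t ≤ (x - 2 * η) * t := by
        apply mul_le_mul_of_nonneg_right _ ht0.le
        rw [hw] at g2
        linarith
      have he3 : e2 * (2 * t) = η * t := by rw [he2]; ring
      have e5 : (x - η) * t = (x - 2 * η) * t + η * t := by ring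
      rw [e5]
      linarith
  obtain ⟨X1, hX1, hup⟩ := yz_up (x := x) (x' := x - η) (by linarith)
  obtain ⟨T0, hT0⟩ := h5 (1 - Qf x - ε / 2) A (ε / 2) (fun γ => (mz γ : ℝ)) H hq0 hA
    (by positivity) (fun γ => Nat.cast_nonneg _) hev X1
  refine ⟨T0, fun T hT => ?_⟩
  obtain ⟨hfin, hle⟩ := hT0 T hT
  have hle2 : (1 - Qf x - ε) * NZ T ≤ ∑ᶠ γ ∈ SH H A X1 T, (mz γ : ℝ) := by
    have e4 : (1 - Qf x - ε) * NZ T = (1 - Qf x - ε / 2 - ε / 2) * NZ T := by ring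
    rw [e4]
    exact hle
  set B : Set ℝ := {γ : ℝ | 3 < γ ∧ γ ≤ T ∧ hardyZ γ = 0 ∧ deriv hardyZ γ ≠ 0 ∧ x < YZ γ}
    with hBdef
  have f6 := z6 T
  have hBsub : B ⊆ {γ : ℝ | 0 < γ ∧ γ ≤ T ∧ riemannZeta (1 / 2 + γ * I) = 0} :=
    fun γ hγ => ⟨by linarith [hγ.1], hγ.2.1, (z1 γ).1 hγ.2.2.1⟩
  have hSsub : SH H A X1 T ⊆ {γ : ℝ | 0 < γ ∧ γ ≤ T ∧ riemannZeta (1 / 2 + γ * I) = 0} := by
    rintro γ ⟨g1, T', g2, g3, g4, g5⟩
    exact ⟨by linarith [g4.1], g1, g4.2.2⟩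
  have hBf : B.Finite := f6.subset hBsub
  have hdisj : Disjoint hBf.toFinset hfin.toFinset := by
    rw [Finset.disjoint_left]
    intro γ hγ1 hγ2
    have k1 : γ ∈ B := by simpa using hγ1
    have k2 : γ ∈ SH H A X1 T := by simpa using hγ2
    obtain ⟨b1, b2, b3, b4, b5⟩ := k1
    obtain ⟨g1, T', g2, g3, g4, g5⟩ := k2
    have hz : 0 < |deriv hardyZ γ| := abs_pos.2 b4
    have hzz := h6 γ b3
    have hm1 : 1 ≤ mz γ := z3 γ g4.2.2
    have hm2 : ¬ 2 ≤ mz γ := by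
      intro h
      have := z5 γ h
      rw [this, norm_zero] at hzz
      linarith
    have hm : mz γ = 1 := by omega
    have hDle := g3.2 hm
    have := hup T' γ _ g2 g4.1 g4.2.1 hz (by
      rw [hzz]
      exact hDle)
    have b5' : x < Real.log (|deriv hardyZ γ| / Real.log γ) /
      Real.sqrt (Real.log (Real.log γ) / 2) := b5
    linarith
  have hsum : (B.ncard : ℝ) + ∑ᶠ γ ∈ SH H A X1 T, (mz γ : ℝ) ≤ NZ T := by
    rw [NZ_eq hZ T, finsum_mem_eq_finite_toFinset_sum _ f6,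
      finsum_mem_eq_finite_toFinset_sum _ hfin, Set.ncard_eq_toFinset_card _ hBf]
    have s1 : (hBf.toFinset.card : ℝ) ≤ ∑ γ ∈ hBf.toFinset, (mz γ : ℝ) := by
      rw [Finset.card_eq_sum_ones, Nat.cast_sum]
      refine Finset.sum_le_sum fun γ hγ => ?_
      have hγ' : γ ∈ B := by simpa using hγ
      exact_mod_cast z3 γ (hBsub hγ').2.2
    have s2 : ∑ γ ∈ hBf.toFinset, (mz γ : ℝ) + ∑ γ ∈ hfin.toFinset, (mz γ : ℝ) ≤
        ∑ γ ∈ f6.toFinset, (mz γ : ℝ) := by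
      rw [← Finset.sum_union hdisj]
      refine Finset.sum_le_sum_of_subset_of_nonneg ?_ fun γ _ _ => Nat.cast_nonneg _
      intro γ hγ
      rw [Finset.mem_union, Set.Finite.mem_toFinset, Set.Finite.mem_toFinset] at hγ
      rw [Set.Finite.mem_toFinset]
      rcases hγ with h | h
      · exact hBsub h
      · exact hSsub h
    linarith
  have e9 : (Qf x + ε) * NZ T = NZ T - (1 - Qf x - ε) * NZ T := by ring
  rw [e9]
  linarith

end Pool.Agent.Lib.MP_6bc78b_nt.MS.GL.H81
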