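import Pool.Agent.Lib.MP_6bc78b_nt.MS.GL.Iface2
import Pool.Agent.Lib.MP_6bc78b_nt.MS.GL.H81.Fgu

/-! Project MS, Part GL, module FGW (helper81): the union form. -/

set_option autoImplicit false

open Complex Filter Topology MeasureTheory ArithmeticFunction

namespace Pool.Agent.Lib.MP_6bc78b_nt.MS.GL.H81

open Pool.Agent.Lib.MP_6bc78b_nt Pool.Agent.Lib.MP_6bc78b_nt.MS
  Pool.Agent.Lib.MP_6bc78b_nt.MS.P1 Pool.Agent.Lib.MP_6bc78b_nt.MS.QZ
  Pool.Agent.Lib.MP_6bc78b_nt.MS.GL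

/-- from the window to the normalized logarithm -/
lemma transfer (h6 : DhzStatement) (hZ : ZfacStatement) {a b η : ℝ} (hη0 : 0 < η) :
    ∃ X1 : ℝ, 40 ≤ X1 ∧ ∀ T γ : ℝ, X1 ≤ T → γ ∈ zset T → mz γ = 1 →
      -b + η < X0 T γ → X0 T γ ≤ -a - η →
      |Real.log ‖deriv riemannZeta (1 / 2 + γ * I)‖ - Real.log (Real.log T) - (P0 T γ).re| ≤
        η / 4 * Real.sqrt (ll T) →
      hardyZ γ = 0 ∧ deriv hardyZ γ ≠ 0 ∧ a < YZ γ ∧ YZ γ < b := by
  obtain ⟨X1, hX1, hup⟩ := yz_up (x := b) (x' := b - η / 2) (by linarith)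
  obtain ⟨X2, hX2, hlow⟩ := yz_low (x := a) (x' := a + η / 2) (by linarith)
  refine ⟨max X1 X2, hX1.trans (le_max_left _ _), ?_⟩
  intro T' γ g2 g4 hm k1 k2 k4
  have hT'1 : X1 ≤ T' := (le_max_left _ _).trans g2
  have hT'2 : X2 ≤ T' := (le_max_right _ _).trans g2
  have hT'3 : 40 ≤ T' := hX1.trans hT'1
  have hlog : 1 < Real.log T' := by
    rw [Real.lt_log_iff_exp_lt (by linarith)]
    exact Real.exp_one_lt_d9.trans (by linarith)
  obtain ⟨d1, d2⟩ := deriv_ne hZ g4.2.2 hm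
  have hz : 0 < |deriv hardyZ γ| := abs_pos.2 d2
  have hzz := h6 γ d1
  set t := Real.sqrt (ll T' / 2) with ht
  have ht0 : 0 < t := by
    rw [ht]
    apply Real.sqrt_pos.2
    have : 0 < Real.log (Real.log T') := Real.log_pos hlog
    have h7 : ll T' = Real.log (Real.log T') := rfl
    rw [h7]
    linarith
  have hP : (P0 T' γ).re = -(X0 T' γ) * t := by
    have : X0 T' γ = -(P0 T' γ).re / t := rfl
    rw [this, neg_div, neg_neg, div_mul_cancel₀ _ ht0.ne']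
  have hk4 := abs_le.1 k4
  have hsq2 : η / 4 * Real.sqrt (ll T') ≤ η / 4 * (2 * t) :=
    mul_le_mul_of_nonneg_left (sqrt_ll T') (by positivity)
  have hX3 : -X0 T' γ * t ≤ (b - η) * t := by
    apply mul_le_mul_of_nonneg_right _ ht0.le
    linarith
  have hX4 : (a + η) * t ≤ -X0 T' γ * t := by
    apply mul_le_mul_of_nonneg_right _ ht0.le
    linarith
  have he3 : η / 4 * (2 * t) = η / 2 * t := by ring
  rw [hP, ← hzz] at hk4
  refine ⟨d1, d2, ?_, ?_⟩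
  · refine hlow T' γ _ hT'2 g4.1 g4.2.1 hz ?_
    have : (a + η / 2) * t = (a + η) * t - η / 2 * t := by ring
    rw [this]
    linarith [hk4.1]
  · refine hup T' γ _ hT'1 g4.1 g4.2.1 hz ?_
    have : (b - η / 2) * t = (b - η) * t + η / 2 * t := by ring
    rw [this]
    linarith [hk4.2]

/-- a positive lower bound for the lengths -/
lemma exists_len (J : Finset (ℝ × ℝ)) (hJ : ∀ p ∈ J, p.1 < p.2) :
    ∃ d : ℝ, 0 < d ∧ ∀ p ∈ J, d ≤ p.2 - p.1 := by
  classical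
  induction J using Finset.induction_on with
  | empty => exact ⟨1, one_pos, by simp⟩
  | insert q J hq ih =>
    obtain ⟨d, hd, h⟩ := ih fun p hp => hJ p (Finset.mem_insert_of_mem hp)
    have hq' := hJ q (Finset.mem_insert_self _ _)
    refine ⟨min d (q.2 - q.1), lt_min hd (by linarith), fun p hp => ?_⟩
    rcases Finset.mem_insert.1 hp with h1 | h1
    · rw [h1]
      exact min_le_right _ _
    · exact (min_le_left _ _).trans (h p h1)

/-- the weight of the union of the slices -/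
lemma slices {J : Finset (ℝ × ℝ)} {e T : ℝ} {u v : ℝ × ℝ → ℝ} {W : Finset ℝ}
    {f : ℝ → ℝ} {X : ℝ → ℝ} {P : ℝ} (hf : ∀ γ, 0 ≤ f γ) (huv : ∀ p ∈ J, u p ≤ v p)
    (hd : ∀ p ∈ J, ∀ q ∈ J, p ≠ q → ∀ y : ℝ, ¬ ((u p < y ∧ y ≤ v p) ∧ (u q < y ∧ y ≤ v q)))
    (hu : ∀ p ∈ J, |∑ γ ∈ W.filter (fun γ => u p < X γ), f γ - Qf (u p) * P| ≤ e * P)
    (hv : ∀ p ∈ J, |∑ γ ∈ W.filter (fun γ => v p < X γ), f γ - Qf (v p) * P| ≤ e * P) :
    (∑ p ∈ J, (Qf (u p) - Qf (v p))) * P - 2 * (J.card : ℝ) * e * P ≤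
      ∑ γ ∈ W.filter (fun γ => ∃ p ∈ J, u p < X γ ∧ X γ ≤ v p), f γ := by
  classical
  have h1 : ∀ p ∈ J, (Qf (u p) - Qf (v p)) * P - 2 * e * P ≤
      ∑ γ ∈ W.filter (fun γ => u p < X γ ∧ X γ ≤ v p), f γ := by
    intro p hp
    have a1 := (abs_le.1 (hu p hp)).1
    have a2 := (abs_le.1 (hv p hp)).2
    have a3 : ∑ γ ∈ W.filter (fun γ => u p < X γ), f γ =
        ∑ γ ∈ W.filter (fun γ => u p < X γ ∧ X γ ≤ v p), f γ +
          ∑ γ ∈ W.filter (fun γ => v p < X γ), f γ := by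
      rw [← Finset.sum_union]
      · apply Finset.sum_congr _ fun _ _ => rfl
        ext γ
        simp only [Finset.mem_filter, Finset.mem_union]
        constructor
        · rintro ⟨g1, g2⟩
          by_cases g3 : v p < X γ
          · exact Or.inr ⟨g1, g3⟩
          · exact Or.inl ⟨g1, g2, not_lt.1 g3⟩
        · rintro (⟨g1, g2, g3⟩ | ⟨g1, g2⟩)
          · exact ⟨g1, g2⟩
          · exact ⟨g1, lt_of_le_of_lt (huv p hp) g2⟩
      · rw [Finset.disjoint_left]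
        intro γ g1 g2
        have g3 := (Finset.mem_filter.1 g1).2.2
        have g4 := (Finset.mem_filter.1 g2).2
        linarith
    rw [a3] at a1
    have : (Qf (u p) - Qf (v p)) * P = Qf (u p) * P - Qf (v p) * P := by ring
    linarith
  have h2 : W.filter (fun γ => ∃ p ∈ J, u p < X γ ∧ X γ ≤ v p) =
      J.biUnion fun p => W.filter (fun γ => u p < X γ ∧ X γ ≤ v p) := by
    ext γ
    simp only [Finset.mem_filter, Finset.mem_biUnion]
    constructor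
    · rintro ⟨g1, p, g2, g3⟩
      exact ⟨p, g2, g1, g3⟩
    · rintro ⟨p, g2, g1, g3⟩
      exact ⟨g1, p, g2, g3⟩
  rw [h2, Finset.sum_biUnion]
  · have h3 := Finset.sum_le_sum h1
    refine le_trans (le_of_eq ?_) h3
    conv_rhs => rw [Finset.sum_sub_distrib, ← Finset.sum_mul, Finset.sum_const, nsmul_eq_mul]
    ring
  · intro p hp q hq hpq
    rw [Function.onFun, Finset.disjoint_left]
    intro γ g1 g2
    exact hd p hp q hq hpq (X γ) ⟨(Finset.mem_filter.1 g1).2, (Finset.mem_filter.1 g2).2⟩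

/-- module FGW -/
theorem fgw (h0 : GlbStatement) (h1 : NmqStatement) (h2 : TyjStatement) (h3 : CmuStatement)
    (h4 : LitStatement) (h5 : CnlStatement) (h6 : DhzStatement) (h7 : ZfacStatement)
    (h8 : QsyStatement) (h9 : QfcStatement) (h10 : MorStatement) : FgwStatement := by
  classical
  have hZ := h7
  obtain ⟨z1, z2, z3, z4, z5, z6, z7⟩ := h7
  intro J ε hε hJ hJd
  by_cases hq0 : ∑ p ∈ J, (Qf p.1 - Qf p.2) - 8 / 27 - ε / 2 ≤ 0
  · refine ⟨0, fun T _ => ?_⟩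
    have h10 : (∑ p ∈ J, (Qf p.1 - Qf p.2) - 8 / 27 - ε) * NZ T ≤ 0 :=
      mul_nonpos_of_nonpos_of_nonneg (by linarith) (NZ_nonneg T)
    exact h10.trans (Nat.cast_nonneg _)
  rw [not_le] at hq0
  -- parameters
  obtain ⟨d, hd0, hd⟩ := exists_len J hJ
  set N : ℝ := (J.card : ℝ) with hN
  have hN0 : 0 ≤ N := Nat.cast_nonneg _
  obtain ⟨η, hη0, hη1, hη2, hη3⟩ : ∃ η : ℝ, 0 < η ∧ 2 * N * η ≤ ε / 16 ∧ η ≤ ε / 16 ∧
      4 * η ≤ d := by
    refine ⟨min (ε / 16 / (2 * N + 1)) (d / 4), lt_min (by positivity) (by positivity),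
      ?_, ?_, ?_⟩
    · have h11 : min (ε / 16 / (2 * N + 1)) (d / 4) ≤ ε / 16 / (2 * N + 1) := min_le_left _ _
      rw [le_div_iff₀ (by positivity)] at h11
      have h12 : 0 < min (ε / 16 / (2 * N + 1)) (d / 4) :=
        lt_min (by positivity) (by positivity)
      nlinarith
    · refine (min_le_left _ _).trans ?_
      rw [div_le_iff₀ (by positivity)]
      nlinarith
    · have := min_le_right (ε / 16 / (2 * N + 1)) (d / 4)
      linarith
  set e2 : ℝ := η / 4 with he2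
  have he20 : 0 < e2 := by positivity
  set u : ℝ × ℝ → ℝ := fun p => -p.2 + η with hu
  set v : ℝ × ℝ → ℝ := fun p => -p.1 - η with hv
  have huv : ∀ p ∈ J, u p ≤ v p := by
    intro p hp
    have := hd p hp
    simp only [hu, hv]
    linarith
  have hdis : ∀ p ∈ J, ∀ q ∈ J, p ≠ q → ∀ y : ℝ,
      ¬ ((u p < y ∧ y ≤ v p) ∧ (u q < y ∧ y ≤ v q)) := by
    intro p hp q hq hpq y hy
    have h11 := Set.disjoint_left.1 (hJd hp hq hpq)
    simp only [hu, hv] at hy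
    exact h11 (a := -y) ⟨by linarith [hy.1.2], by linarith [hy.1.1]⟩
      ⟨by linarith [hy.2.2], by linarith [hy.2.1]⟩
  have hQ : ∑ p ∈ J, (Qf p.1 - Qf p.2) - ε / 16 ≤ ∑ p ∈ J, (Qf (u p) - Qf (v p)) := by
    have h11 : ∀ p ∈ J, Qf p.1 - Qf p.2 - 2 * η ≤ Qf (u p) - Qf (v p) := by
      intro p hp
      have q1 := (h9 (-p.2) (u p) (by simp only [hu]; linarith)).2.2.1
      have q2 := (h9 (v p) (-p.1) (by simp only [hv]; linarith)).2.2.1
      have q3 := (h8 p.1 p.2 (hJ p hp).le).1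
      have q4 : u p - -p.2 = η := by simp only [hu]; ring
      have q5 : -p.1 - v p = η := by simp only [hv]; ring
      linarith
    have h12 := Finset.sum_le_sum h11
    rw [Finset.sum_sub_distrib, Finset.sum_const, nsmul_eq_mul] at h12
    have h13 : (J.card : ℝ) * (2 * η) = 2 * N * η := by rw [hN]; ring
    linarith
  obtain ⟨th, c1, c2, hth0, hth, hm1, hm2, hq⟩ := h1 (ε / 16) (by positivity)
  obtain ⟨A, ηG, hA, hηG, hηG1, hG⟩ := h0 th c1 c2 (ε / 16) hth0 hth hm1 (by positivity)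
  have hty := h2 th c1 c2 (e2 / 2) hth0 hth (by positivity)
  have hB := h3 e2 he20
  have hLu : ∀ᶠ T : ℝ in atTop, ∀ p ∈ J,
      |∑ᶠ γ ∈ {γ | γ ∈ zset T ∧ u p < X0 T γ}, (mz γ : ℝ) * wt T γ -
        Qf (u p) * (cG T * Real.log T)| ≤ η * (cG T * Real.log T) :=
    (Filter.eventually_all_finset J).2 fun p _ => h4 (u p) η hη0
  have hLv : ∀ᶠ T : ℝ in atTop, ∀ p ∈ J,
      |∑ᶠ γ ∈ {γ | γ ∈ zset T ∧ v p < X0 T γ}, (mz γ : ℝ) * wt T γ -
        Qf (v p) * (cG T * Real.log T)| ≤ η * (cG T * Real.log T) :=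
    (Filter.eventually_all_finset J).2 fun p _ => h4 (v p) η hη0
  -- total mass
  have htot : ∀ᶠ T : ℝ in atTop, (∑ᶠ γ ∈ zset T, (mz γ : ℝ) * wt T γ) ≤
      (1 + ε / 16) * (cG T * Real.log T) := by
    have h11 := h10 0
    have h12 : gm 0 = 1 := by simp [gm]
    rw [h12] at h11
    filter_upwards [h11.eventually_le_const (show (1 : ℝ) < 1 + ε / 16 by linarith),
      eventually_gt_atTop 1] with T hT hT1
    have hp : 0 < cG T * Real.log T := mul_pos (cG_pos hT1) (Real.log_pos hT1)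
    simp only [pow_zero, mul_one] at hT
    rwa [div_le_iff₀ hp] at hT
  -- the scale
  have hsc : ∀ᶠ T : ℝ in atTop, -Real.log ηG ≤ e2 / 2 * Real.sqrt (ll T) := by
    have h11 : Tendsto (fun T : ℝ => e2 / 2 * Real.sqrt (ll T)) atTop atTop := by
      apply Tendsto.const_mul_atTop (by positivity)
      exact Real.tendsto_sqrt_atTop.comp (Real.tendsto_log_atTop.comp Real.tendsto_log_atTop)
    exact h11.eventually_ge_atTop _
  set D : ℝ → ℝ → ℝ := fun T γ => Real.log ‖deriv riemannZeta (1 / 2 + γ * I)‖ -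
    Real.log (Real.log T) - (P0 T γ).re with hD
  set H : ℝ → Set ℝ := fun T => {γ | (γ ∈ zset T ∧ |γ - T| ≤ A * DD T) ∧
    (∃ p ∈ J, u p < X0 T γ ∧ X0 T γ ≤ v p) ∧ mz γ = 1 ∧ |D T γ| ≤ e2 * Real.sqrt (ll T)} with hH
  have hev : ∀ᶠ T : ℝ in atTop, H T ⊆ {γ : ℝ | γ ∈ zset T ∧ |γ - T| ≤ A * DD T} ∧
      (∑ p ∈ J, (Qf p.1 - Qf p.2) - 8 / 27 - ε / 2) * (cG T * Real.log T) ≤
        ∑ᶠ γ ∈ H T, (fun _ => (1 : ℝ)) γ * wt T γ := by
    filter_upwards [hG, hty, hB, hLu, hLv, htot, hsc, eventually_gt_atTop 3] with T hT1 hT2 hT3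
      hT4 hT5 hT6 hT7 hT8
    refine ⟨fun γ hγ => hγ.1, ?_⟩
    have hL : 0 < Real.log T := Real.log_pos (by linarith)
    have hp : 0 < cG T * Real.log T := mul_pos (cG_pos (by linarith)) hL
    set P := cG T * Real.log T with hP
    have f0 : (zset T).Finite := z7 T
    set W := f0.toFinset with hW
    set f : ℝ → ℝ := fun γ => (mz γ : ℝ) * wt T γ with hf
    have hf0 : ∀ γ, 0 ≤ f γ := fun γ => mul_nonneg (Nat.cast_nonneg _) (wt_pos T γ).le
    have conv : ∀ (q : ℝ → Prop) [DecidablePred q] (g : ℝ → ℝ),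
        ∑ᶠ γ ∈ {γ | γ ∈ zset T ∧ q γ}, g γ = ∑ γ ∈ W.filter q, g γ := by
      intro q _ g
      have f1 : {γ | γ ∈ zset T ∧ q γ}.Finite := f0.subset fun γ hγ => hγ.1
      rw [finsum_mem_eq_finite_toFinset_sum _ f1]
      apply Finset.sum_congr _ fun _ _ => rfl
      ext γ
      simp [hW]
    have hsl := slices (J := J) (e := η) (T := T) (u := u) (v := v) (W := W) (f := f)
      (X := X0 T) (P := P) hf0 huv hdis
      (fun p hp => by
        rw [← conv (fun γ => u p < X0 T γ) f]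
        exact hT4 p hp)
      (fun p hp => by
        rw [← conv (fun γ => v p < X0 T γ) f]
        exact hT5 p hp)
    have ht6 : ∑ γ ∈ W, f γ ≤ (1 + ε / 16) * P :=
      le_trans (le_of_eq (finsum_mem_eq_finite_toFinset_sum _ f0).symm) hT6
    -- the good set
    set G := W.filter (fun γ => |γ - T| ≤ A * DD T ∧
      ηG * Real.log T ≤ ‖vv th c1 c2 T (1 / 2 + γ * I)‖) with hGd
    have hGs : (19 / 27 - ε / 16 - ε / 16) * P ≤ ∑ γ ∈ G, wt T γ := by
      have e1 : ∑ᶠ γ ∈ Gset th c1 c2 A ηG T, wt T γ = ∑ γ ∈ G, wt T γ :=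
        conv (fun γ => |γ - T| ≤ A * DD T ∧
          ηG * Real.log T ≤ ‖vv th c1 c2 T (1 / 2 + γ * I)‖) (fun γ => wt T γ)
      refine le_trans (le_trans ?_ hT1) (le_of_eq e1)
      apply mul_le_mul_of_nonneg_right _ hp.le
      linarith
    -- bad sets
    set B1 := W.filter (fun γ => Real.exp (e2 / 2 * Real.sqrt (ll T) - (P0 T γ).re) <
      ‖MM th c1 c2 T (1 / 2 + γ * I)‖) with hB1
    have hB1s : ∑ γ ∈ B1, f γ ≤ e2 / 2 * P := by
      have e1 := conv (fun γ => Real.exp (e2 / 2 * Real.sqrt (ll T) - (P0 T γ).re) <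
        ‖MM th c1 c2 T (1 / 2 + γ * I)‖) f
      exact le_trans (le_of_eq e1.symm) hT2
    set B2 := W.filter (fun γ => mz γ = 1 ∧ e2 * Real.sqrt (ll T) < D T γ) with hB2
    have hB2s : ∑ γ ∈ B2, f γ ≤ e2 * P := by
      have e1 := conv (fun γ => mz γ = 1 ∧ e2 * Real.sqrt (ll T) < D T γ) f
      refine le_trans (le_of_eq e1.symm) (le_trans (le_of_eq ?_) hT3)
      refine finsum_mem_congr rfl fun γ hγ => ?_
      have hγ' : mz γ = 1 := hγ.2.1
      simp only [hf, hγ', Nat.cast_one, one_mul]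
    set B3 := W.filter (fun γ => ¬ ∃ p ∈ J, u p < X0 T γ ∧ X0 T γ ≤ v p) with hB3
    have hB3s : ∑ γ ∈ B3, f γ = ∑ γ ∈ W, f γ -
        ∑ γ ∈ W.filter (fun γ => ∃ p ∈ J, u p < X0 T γ ∧ X0 T γ ≤ v p), f γ := by
      have := Finset.sum_filter_add_sum_filter_not W
        (fun γ => ∃ p ∈ J, u p < X0 T γ ∧ X0 T γ ≤ v p) f
      linarith
    set HH := W.filter (fun γ => |γ - T| ≤ A * DD T ∧
      (∃ p ∈ J, u p < X0 T γ ∧ X0 T γ ≤ v p) ∧ mz γ = 1 ∧
        |D T γ| ≤ e2 * Real.sqrt (ll T)) with hHH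
    have hsum : ∑ᶠ γ ∈ H T, (fun _ => (1 : ℝ)) γ * wt T γ = ∑ γ ∈ HH, wt T γ := by
      have e1 := conv (fun γ => |γ - T| ≤ A * DD T ∧
        (∃ p ∈ J, u p < X0 T γ ∧ X0 T γ ≤ v p) ∧ mz γ = 1 ∧
        |D T γ| ≤ e2 * Real.sqrt (ll T)) (fun γ => wt T γ)
      refine Eq.trans ?_ e1
      have e2' : H T = {γ | γ ∈ zset T ∧ |γ - T| ≤ A * DD T ∧
        (∃ p ∈ J, u p < X0 T γ ∧ X0 T γ ≤ v p) ∧ mz γ = 1 ∧
        |D T γ| ≤ e2 * Real.sqrt (ll T)} := by
        ext γ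
        constructor
        · rintro ⟨⟨a1, a2⟩, a3⟩
          exact ⟨a1, a2, a3⟩
        · rintro ⟨a1, a2, a3⟩
          exact ⟨⟨a1, a2⟩, a3⟩
      refine finsum_mem_congr e2' fun γ _ => ?_
      simp only [one_mul]
    rw [hsum]
    have hwf : ∀ γ ∈ W, wt T γ ≤ f γ := by
      intro γ hγ
      have hγ' : γ ∈ zset T := by simpa [hW] using hγ
      have hm : (1 : ℝ) ≤ mz γ := by exact_mod_cast z3 γ hγ'.2.2
      simp only [hf]
      nlinarith [wt_pos T γ]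
    have hcov : ∑ γ ∈ G, wt T γ ≤ ∑ γ ∈ HH, wt T γ + ∑ γ ∈ B1, f γ + ∑ γ ∈ B2, f γ +
        ∑ γ ∈ B3, f γ := by
      have hsub : G ⊆ ((HH ∪ B1) ∪ B2) ∪ B3 := by
        intro γ hγ
        obtain ⟨g1, g2, g3⟩ := Finset.mem_filter.1 hγ
        have g1' : γ ∈ zset T := by simpa [hW] using g1
        by_cases c3 : ∃ p ∈ J, u p < X0 T γ ∧ X0 T γ ≤ v p
        swap
        · exact Finset.mem_union_right _ (Finset.mem_filter.2 ⟨g1, c3⟩)
        by_cases c1' : Real.exp (e2 / 2 * Real.sqrt (ll T) - (P0 T γ).re) <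
          ‖MM th c1 c2 T (1 / 2 + γ * I)‖
        · exact Finset.mem_union_left _ (Finset.mem_union_left _
            (Finset.mem_union_right _ (Finset.mem_filter.2 ⟨g1, c1'⟩)))
        have hvpos : 0 < ‖vv th c1 c2 T (1 / 2 + γ * I)‖ :=
          lt_of_lt_of_le (mul_pos hηG hL) g3
        have hvne : vv th c1 c2 T (1 / 2 + γ * I) ≠ 0 := norm_pos_iff.1 hvpos
        unfold vv at hvne
        have hζ : deriv riemannZeta (1 / 2 + γ * I) ≠ 0 := left_ne_zero_of_mul hvne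
        have hMne : MM th c1 c2 T (1 / 2 + γ * I) ≠ 0 := right_ne_zero_of_mul hvne
        have hm1' : 1 ≤ mz γ := z3 γ g1'.2.2
        have hm2' : ¬ 2 ≤ mz γ := fun h => hζ (z5 γ h)
        have hm : mz γ = 1 := by omega
        by_cases c2' : e2 * Real.sqrt (ll T) < D T γ
        · exact Finset.mem_union_left _ (Finset.mem_union_right _
            (Finset.mem_filter.2 ⟨g1, hm, c2'⟩))
        refine Finset.mem_union_left _ (Finset.mem_union_left _
          (Finset.mem_union_left _ (Finset.mem_filter.2 ⟨g1, g2, c3, hm, ?_⟩)))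
        rw [abs_le]
        refine ⟨?_, not_lt.1 c2'⟩
        -- the lower bound
        have k1 : Real.log ‖MM th c1 c2 T (1 / 2 + γ * I)‖ ≤
            e2 / 2 * Real.sqrt (ll T) - (P0 T γ).re := by
          rw [Real.log_le_iff_le_exp (norm_pos_iff.2 hMne)]
          exact not_lt.1 c1'
        have k2 : Real.log ηG + Real.log (Real.log T) ≤
            Real.log ‖deriv riemannZeta (1 / 2 + γ * I)‖ +
              Real.log ‖MM th c1 c2 T (1 / 2 + γ * I)‖ := by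
          rw [← Real.log_mul hηG.ne' hL.ne', ← Real.log_mul (norm_ne_zero_iff.2 hζ)
            (norm_ne_zero_iff.2 hMne), ← norm_mul]
          exact Real.log_le_log (mul_pos hηG hL) g3
        simp only [hD]
        linarith
      have i1 : ∑ γ ∈ G, wt T γ ≤ ∑ γ ∈ ((HH ∪ B1) ∪ B2) ∪ B3, wt T γ :=
        Finset.sum_le_sum_of_subset_of_nonneg hsub fun γ _ _ => (wt_pos T γ).le
      have un : ∀ s t : Finset ℝ, ∑ γ ∈ s ∪ t, wt T γ ≤
          ∑ γ ∈ s, wt T γ + ∑ γ ∈ t, wt T γ := by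
        intro s t
        rw [← Finset.sum_union_inter]
        have : 0 ≤ ∑ γ ∈ s ∩ t, wt T γ := Finset.sum_nonneg fun γ _ => (wt_pos T γ).le
        linarith
      have i2 := un ((HH ∪ B1) ∪ B2) B3
      have i3 := un (HH ∪ B1) B2
      have i4 := un HH B1
      have j1 : ∑ γ ∈ B1, wt T γ ≤ ∑ γ ∈ B1, f γ :=
        Finset.sum_le_sum fun γ hγ => hwf γ (Finset.mem_filter.1 hγ).1
      have j2 : ∑ γ ∈ B2, wt T γ ≤ ∑ γ ∈ B2, f γ :=
        Finset.sum_le_sum fun γ hγ => hwf γ (Finset.mem_filter.1 hγ).1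
      have j3 : ∑ γ ∈ B3, wt T γ ≤ ∑ γ ∈ B3, f γ :=
        Finset.sum_le_sum fun γ hγ => hwf γ (Finset.mem_filter.1 hγ).1
      linarith
    -- conclusion
    have l1 := mul_le_mul_of_nonneg_right hQ hp.le
    have l2 : 2 * (J.card : ℝ) * η * P ≤ ε / 16 * P := by
      apply mul_le_mul_of_nonneg_right _ hp.le
      exact hη1
    have l3 : e2 * P ≤ ε / 64 * P := by
      apply mul_le_mul_of_nonneg_right _ hp.le
      rw [he2]
      linarith
    have l4 : e2 / 2 * P = 1 / 2 * (e2 * P) := by ring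
    have l5 : 0 ≤ ε * P := by positivity
    rw [hB3s] at hcov
    linarith
  -- the transfer
  have htr : ∃ X1 : ℝ, 40 ≤ X1 ∧ ∀ p ∈ J, ∀ T γ : ℝ, X1 ≤ T → γ ∈ zset T → mz γ = 1 →
      -p.2 + η < X0 T γ → X0 T γ ≤ -p.1 - η →
      |Real.log ‖deriv riemannZeta (1 / 2 + γ * I)‖ - Real.log (Real.log T) - (P0 T γ).re| ≤
        η / 4 * Real.sqrt (ll T) →
      hardyZ γ = 0 ∧ deriv hardyZ γ ≠ 0 ∧ p.1 < YZ γ ∧ YZ γ < p.2 := by
    choose X hX1 hX2 using fun p : ℝ × ℝ => transfer h6 hZ (a := p.1) (b := p.2) hη0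
    refine ⟨40 + ∑ p ∈ J, X p, ?_, fun p hp T γ hT => hX2 p T γ (le_trans ?_ hT)⟩
    · have : 0 ≤ ∑ p ∈ J, X p := Finset.sum_nonneg fun p _ => by linarith [hX1 p]
      linarith
    · have : X p ≤ ∑ p ∈ J, X p :=
        Finset.single_le_sum (f := X) (fun q _ => by linarith [hX1 q]) hp
      linarith
  obtain ⟨X1, hX1, htr⟩ := htr
  obtain ⟨T0, hT0⟩ := h5 (∑ p ∈ J, (Qf p.1 - Qf p.2) - 8 / 27 - ε / 2) A (ε / 2) (fun _ => 1) H
    hq0 hA (by positivity) (fun _ => zero_le_one) hev X1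
  refine ⟨T0, fun T hT => ?_⟩
  obtain ⟨hfin, hle⟩ := hT0 T hT
  have hle2 : (∑ p ∈ J, (Qf p.1 - Qf p.2) - 8 / 27 - ε) * NZ T ≤
      ((SH H A X1 T).ncard : ℝ) := by
    have e3 : ∑ᶠ γ ∈ SH H A X1 T, (fun _ => (1 : ℝ)) γ = ((SH H A X1 T).ncard : ℝ) := by
      rw [finsum_mem_eq_finite_toFinset_sum _ hfin, Finset.sum_const, nsmul_eq_mul, mul_one,
        Set.ncard_eq_toFinset_card _ hfin]
    rw [e3] at hle
    have e4 : (∑ p ∈ J, (Qf p.1 - Qf p.2) - 8 / 27 - ε) * NZ T =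
      (∑ p ∈ J, (Qf p.1 - Qf p.2) - 8 / 27 - ε / 2 - ε / 2) * NZ T := by ring
    rw [e4]
    exact hle
  refine hle2.trans ?_
  have hfin2 : (NU (⋃ p ∈ J, Set.Ioo p.1 p.2) T).Finite :=
    (z6 T).subset fun γ hγ => ⟨by linarith [hγ.1], hγ.2.1, (z1 γ).1 hγ.2.2.1⟩
  have hsub : SH H A X1 T ⊆ NU (⋃ p ∈ J, Set.Ioo p.1 p.2) T := by
    rintro γ ⟨g1, T', g2, g3, g4, g5⟩
    obtain ⟨-, ⟨p, hp, k1, k2⟩, k3, k4⟩ := g3
    obtain ⟨d1, d2, d3, d4⟩ := htr p hp T' γ g2 g4 k3 k1 k2 k4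
    refine ⟨by linarith [g4.1], g1, d1, d2, ?_⟩
    rw [Set.mem_iUnion₂]
    exact ⟨p, hp, d3, d4⟩
  exact_mod_cast Set.ncard_le_ncard hsub hfin2

end Pool.Agent.Lib.MP_6bc78b_nt.MS.GL.H81
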