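import Pool.Agent.Lib.MP_6bc78b_nt.MS.GL.Iface

/-! Project MS, Part GL, helper81: lemmas for the modules FGB and FGU. -/

set_option autoImplicit false

open Complex Filter Topology MeasureTheory ArithmeticFunction

namespace Pool.Agent.Lib.MP_6bc78b_nt.MS.GL.H81

open Pool.Agent.Lib.MP_6bc78b_nt Pool.Agent.Lib.MP_6bc78b_nt.MS
  Pool.Agent.Lib.MP_6bc78b_nt.MS.P1 Pool.Agent.Lib.MP_6bc78b_nt.MS.QZ
  Pool.Agent.Lib.MP_6bc78b_nt.MS.GL

lemma DD_pos {T : ℝ} (h : 1 < T) : 0 < DD T := by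
  unfold DD
  exact div_pos (by linarith) (Real.rpow_pos_of_pos (Real.log_pos h) _)

lemma cG_pos {T : ℝ} (h : 1 < T) : 0 < cG T := by
  have h1 := DD_pos h
  have h2 : 0 < Real.sqrt Real.pi := Real.sqrt_pos.2 Real.pi_pos
  unfold cG
  positivity

lemma wt_pos (T γ : ℝ) : 0 < wt T γ := Real.exp_pos _

lemma NZ_nonneg (T : ℝ) : 0 ≤ NZ T :=
  finsum_nonneg fun _ => finsum_nonneg fun _ => Nat.cast_nonneg _

/-- comparison of the scales -/
lemma scale (R : ℝ) : ∃ X1 : ℝ, 40 ≤ X1 ∧ ∀ T γ : ℝ, X1 ≤ T → T / 2 < γ → γ < 2 * T →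
    R < Real.sqrt (Real.log (Real.log γ) / 2) ∧
    0 < Real.sqrt (Real.log (Real.log γ) / 2) ∧
    |Real.sqrt (Real.log (Real.log γ) / 2) - Real.sqrt (ll T / 2)| ≤ 1 ∧
    |Real.log (Real.log γ) - Real.log (Real.log T)| ≤ 1 ∧
    0 < Real.log γ ∧ 0 < Real.sqrt (ll T / 2) := by
  refine ⟨40 + 2 * Real.exp (Real.exp (2 * (|R| + 2) ^ 2)), ?_, ?_⟩
  · have := Real.exp_pos (Real.exp (2 * (|R| + 2) ^ 2))
    linarith
  intro T γ hT h1 h2
  have hEE := Real.exp_pos (Real.exp (2 * (|R| + 2) ^ 2))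
  have hT40 : 40 ≤ T := by linarith
  have hγE : Real.exp (Real.exp (2 * (|R| + 2) ^ 2)) ≤ γ := by linarith
  have hγ : 20 < γ := by linarith
  have hl1 : Real.exp (2 * (|R| + 2) ^ 2) ≤ Real.log γ := by
    rw [Real.le_log_iff_exp_le (by linarith)]
    exact hγE
  have hlγ0 : 0 < Real.log γ := (Real.exp_pos _).trans_le hl1
  have hll : 2 * (|R| + 2) ^ 2 ≤ Real.log (Real.log γ) := by
    rw [Real.le_log_iff_exp_le hlγ0]
    exact hl1
  have hlT0 : 0 < Real.log T := Real.log_pos (by linarith)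
  have hlT : Real.log γ ≤ 2 * Real.log T := by
    have h4 : Real.log γ ≤ Real.log (T ^ 2) := Real.log_le_log (by linarith) (by nlinarith)
    rw [Real.log_pow] at h4
    exact_mod_cast h4
  have hTγ : Real.log T ≤ 2 * Real.log γ := by
    have h4 : Real.log T ≤ Real.log (2 * γ) := Real.log_le_log (by linarith) (by linarith)
    rw [Real.log_mul (by norm_num) (by linarith)] at h4
    have h5 : Real.log 2 ≤ Real.log γ := Real.log_le_log (by norm_num) (by linarith)
    linarith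
  have hl2 : Real.log 2 ≤ 1 := by
    have := Real.log_two_lt_d9
    linarith
  have ha : Real.log (Real.log T) ≤ Real.log (Real.log γ) + 1 := by
    have h4 : Real.log (Real.log T) ≤ Real.log (2 * Real.log γ) := Real.log_le_log hlT0 hTγ
    rw [Real.log_mul (by norm_num) hlγ0.ne'] at h4
    linarith
  have hb : Real.log (Real.log γ) ≤ Real.log (Real.log T) + 1 := by
    have h4 : Real.log (Real.log γ) ≤ Real.log (2 * Real.log T) := Real.log_le_log hlγ0 hlT
    rw [Real.log_mul (by norm_num) hlT0.ne'] at h4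
    linarith
  have hR0 := abs_nonneg R
  have hR1 := le_abs_self R
  have hRs : |R| + 2 ≤ Real.sqrt (Real.log (Real.log γ) / 2) := by
    apply Real.le_sqrt_of_sq_le
    linarith
  set s := Real.sqrt (Real.log (Real.log γ) / 2) with hs
  set t := Real.sqrt (ll T / 2) with ht
  have hss : s ^ 2 = Real.log (Real.log γ) / 2 := by
    rw [hs, Real.sq_sqrt]
    nlinarith [sq_nonneg (|R| + 2)]
  have h7 : ll T = Real.log (Real.log T) := rfl
  have ht0 : 0 ≤ t := Real.sqrt_nonneg _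
  have hts : t ≤ s + 1 := by
    rw [ht, Real.sqrt_le_left (by linarith), h7]
    nlinarith
  have hst : s ≤ t + 1 := by
    rw [hs, Real.sqrt_le_left (by linarith)]
    have h5 : ll T / 2 ≤ t ^ 2 := by
      by_cases h6 : 0 ≤ ll T / 2
      · rw [ht, Real.sq_sqrt h6]
      · nlinarith [sq_nonneg t]
    rw [h7] at h5
    nlinarith
  refine ⟨by linarith, by linarith, ?_, ?_, hlγ0, by linarith⟩
  · rw [abs_le]
    constructor <;> linarith
  · rw [abs_le]
    constructor <;> linarith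

/-- upper bound for the normalized logarithm -/
lemma yz_up {x x' : ℝ} (hx : x' < x) : ∃ X1 : ℝ, 40 ≤ X1 ∧ ∀ T γ z : ℝ,
    X1 ≤ T → T / 2 < γ → γ < 2 * T → 0 < z →
    Real.log z - Real.log (Real.log T) ≤ x' * Real.sqrt (ll T / 2) →
    Real.log (z / Real.log γ) / Real.sqrt (Real.log (Real.log γ) / 2) < x := by
  obtain ⟨X1, hX1, h⟩ := scale ((|x'| + 1) / (x - x'))
  refine ⟨X1, hX1, fun T γ z hT h1 h2 hz hzx => ?_⟩
  obtain ⟨g1, g2, g3, g4, g5, g6⟩ := h T γ hT h1 h2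
  set s := Real.sqrt (Real.log (Real.log γ) / 2) with hs
  set t := Real.sqrt (ll T / 2) with ht
  rw [div_lt_iff₀ g2, Real.log_div hz.ne' g5.ne']
  rw [div_lt_iff₀ (by linarith)] at g1
  have g7 := abs_le.1 g4
  have h5 : x' * (t - s) ≤ |x'| * 1 := by
    rw [abs_sub_comm] at g3
    exact (le_abs_self _).trans ((abs_mul _ _).le.trans
      (mul_le_mul_of_nonneg_left g3 (abs_nonneg _)))
  nlinarith

/-- lower bound for the normalized logarithm -/
lemma yz_low {x x' : ℝ} (hx : x < x') : ∃ X1 : ℝ, 40 ≤ X1 ∧ ∀ T γ z : ℝ,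
    X1 ≤ T → T / 2 < γ → γ < 2 * T → 0 < z →
    x' * Real.sqrt (ll T / 2) ≤ Real.log z - Real.log (Real.log T) →
    x < Real.log (z / Real.log γ) / Real.sqrt (Real.log (Real.log γ) / 2) := by
  obtain ⟨X1, hX1, h⟩ := scale ((|x'| + 1) / (x' - x))
  refine ⟨X1, hX1, fun T γ z hT h1 h2 hz hzx => ?_⟩
  obtain ⟨g1, g2, g3, g4, g5, g6⟩ := h T γ hT h1 h2
  set s := Real.sqrt (Real.log (Real.log γ) / 2) with hs
  set t := Real.sqrt (ll T / 2) with ht
  rw [lt_div_iff₀ g2, Real.log_div hz.ne' g5.ne']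
  rw [div_lt_iff₀ (by linarith)] at g1
  have g7 := abs_le.1 g4
  have h5 : x' * (s - t) ≤ |x'| * 1 := by
    exact (le_abs_self _).trans ((abs_mul _ _).le.trans
      (mul_le_mul_of_nonneg_left g3 (abs_nonneg _)))
  nlinarith

/-- `Q(-x) = 1 - Q(x)` -/
lemma Qf_neg (x : ℝ) : Qf (-x) = 1 - Qf x := by
  have hint : Integrable (fun u : ℝ => Real.exp (-(u ^ 2 / 2))) := by
    have := integrable_exp_neg_mul_sq (b := 1 / 2) (by norm_num)
    refine this.congr (Eventually.of_forall fun u => ?_)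
    simp only
    congr 1
    ring
  have hval : ∫ u : ℝ, Real.exp (-(u ^ 2 / 2)) = Real.sqrt (2 * Real.pi) := by
    have := integral_gaussian (1 / 2)
    have e : (fun u : ℝ => Real.exp (-(u ^ 2 / 2))) = fun u : ℝ => Real.exp (-(1 / 2) * u ^ 2) := by
      funext u
      congr 1
      ring
    rw [e, this]
    congr 1
    ring
  have h1 : ∫ u in Set.Ioi (-x), Real.exp (-(u ^ 2 / 2)) =
      ∫ u in Set.Iic x, Real.exp (-(u ^ 2 / 2)) := by
    have h2 := integral_comp_neg_Iic x (fun u : ℝ => Real.exp (-(u ^ 2 / 2)))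
    rw [← h2]
    refine setIntegral_congr_fun measurableSet_Iic fun u _ => ?_
    simp
  have h3 : (∫ u in Set.Iic x, Real.exp (-(u ^ 2 / 2))) +
      ∫ u in Set.Ioi x, Real.exp (-(u ^ 2 / 2)) = Real.sqrt (2 * Real.pi) := by
    rw [← hval]
    exact intervalIntegral.integral_Iic_add_Ioi hint.integrableOn hint.integrableOn
  have hs : 0 < Real.sqrt (2 * Real.pi) := Real.sqrt_pos.mpr (by positivity)
  unfold Qf
  rw [h1]
  have h4 : (∫ u in Set.Iic x, Real.exp (-(u ^ 2 / 2))) = Real.sqrt (2 * Real.pi) -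
      ∫ u in Set.Ioi x, Real.exp (-(u ^ 2 / 2)) := by linarith
  rw [h4, mul_sub, inv_mul_cancel₀ hs.ne']

/-- a simple zero has nonzero derivative -/
lemma deriv_ne {γ : ℝ} (hZ : ZfacStatement) (h0 : riemannZeta (1 / 2 + γ * I) = 0)
    (h1 : mz γ = 1) : hardyZ γ = 0 ∧ deriv hardyZ γ ≠ 0 := by
  obtain ⟨z1, z2, -⟩ := hZ
  refine ⟨(z1 γ).2 h0, ?_⟩
  have h2 := z2 γ h0
  rw [h1] at h2
  have h3 : (sInf {m : ℕ | iteratedDeriv m hardyZ γ ≠ 0}) = 1 := h2
  have h4 : {m : ℕ | iteratedDeriv m hardyZ γ ≠ 0}.Nonempty := by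
    by_contra hne
    rw [Set.not_nonempty_iff_eq_empty] at hne
    rw [hne, Nat.sInf_empty] at h3
    exact absurd h3 (by norm_num)
  have h5 := Nat.sInf_mem h4
  rw [h3] at h5
  have h6 : iteratedDeriv 1 hardyZ γ ≠ 0 := h5
  rwa [iteratedDeriv_one] at h6

end Pool.Agent.Lib.MP_6bc78b_nt.MS.GL.H81
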