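import Pool.Agent.Lib.MP_6bc78b_nt.MS.GL.Iface2
import Pool.Agent.Lib.MP_6bc78b_nt.MS.GL.H81.Tools
import Pool.Agent.Lib.MP_6bc78b_nt.MS.QZ.H17.Lev

/-! Project MS, Part GL, modules OPN and UPN (helper81): open sets. -/

set_option autoImplicit false

open Complex Filter Topology MeasureTheory ArithmeticFunction

namespace Pool.Agent.Lib.MP_6bc78b_nt.MS.GL.H81

open Pool.Agent.Lib.MP_6bc78b_nt Pool.Agent.Lib.MP_6bc78b_nt.MS
  Pool.Agent.Lib.MP_6bc78b_nt.MS.P1 Pool.Agent.Lib.MP_6bc78b_nt.MS.QZ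
  Pool.Agent.Lib.MP_6bc78b_nt.MS.GL

lemma NU_finite (hZ : ZfacStatement) (U : Set ℝ) (T : ℝ) : (NU U T).Finite := by
  obtain ⟨z1, z2, z3, z4, z5, z6, z7⟩ := hZ
  exact (z6 T).subset fun γ hγ => ⟨by linarith [hγ.1], hγ.2.1, (z1 γ).1 hγ.2.2.1⟩

lemma NU_mono {U V : Set ℝ} (h : U ⊆ V) (T : ℝ) : NU U T ⊆ NU V T :=
  fun _ hγ => ⟨hγ.1, hγ.2.1, hγ.2.2.1, hγ.2.2.2.1, h hγ.2.2.2.2⟩

/-- additivity over disjoint sets -/
lemma NU_sum (hZ : ZfacStatement) (T : ℝ) (J : Finset (ℝ × ℝ))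
    (hJ : (J : Set (ℝ × ℝ)).PairwiseDisjoint (fun p => Set.Ioo p.1 p.2)) :
    ∑ p ∈ J, ((NU (Set.Ioo p.1 p.2) T).ncard : ℝ) ≤
      ((NU (⋃ p ∈ J, Set.Ioo p.1 p.2) T).ncard : ℝ) := by
  classical
  have hf := fun U => NU_finite hZ U T
  have h1 : ∀ p ∈ J, ((NU (Set.Ioo p.1 p.2) T).ncard : ℝ) =
      ((hf (Set.Ioo p.1 p.2)).toFinset.card : ℝ) := fun p _ => by
    rw [Set.ncard_eq_toFinset_card _ (hf _)]
  rw [Finset.sum_congr rfl h1, ← Nat.cast_sum, ← Finset.card_biUnion,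
    Set.ncard_eq_toFinset_card _ (hf _)]
  · norm_cast
    apply Finset.card_le_card
    intro γ hγ
    rw [Finset.mem_biUnion] at hγ
    obtain ⟨p, hp, h2⟩ := hγ
    rw [Set.Finite.mem_toFinset] at h2 ⊢
    refine NU_mono ?_ T h2
    exact Set.subset_biUnion_of_mem (u := fun p : ℝ × ℝ => Set.Ioo p.1 p.2) hp
  · intro p hp q hq hpq
    rw [Function.onFun, Finset.disjoint_left]
    intro γ g1 g2
    rw [Set.Finite.mem_toFinset] at g1 g2
    exact Set.disjoint_left.1 (hJ hp hq hpq) g1.2.2.2.2 g2.2.2.2.2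

/-- module OPN -/
theorem opn (h1 : FgbStatement) (h2 : FgwStatement) (h3 : OpaStatement)
    (h4 : ZfacStatement) : OpnStatement := by
  classical
  intro U ε hU hε
  obtain ⟨J, hJ1, hJ2, hJ3, hJ4⟩ := h3 U (ε / 2) hU (by positivity)
  set μ := (ProbabilityTheory.gaussianReal 0 1).real U with hμ
  set S := ∑ p ∈ J, (Qf p.1 - Qf p.2) with hS
  set N : ℝ := (J.card : ℝ) with hN
  have hN0 : 0 ≤ N := Nat.cast_nonneg _
  obtain ⟨Tw, hTw⟩ := h2 J (ε / 2) (by positivity) hJ1 hJ2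
  have hb : ∀ p : ℝ × ℝ, ∃ T0 : ℝ, p ∈ J → ∀ T : ℝ, T0 ≤ T →
      (2 / 3 * (Qf p.1 - Qf p.2) - ε / 2 / (N + 1)) * NZ T ≤
        ((NU (Set.Ioo p.1 p.2) T).ncard : ℝ) := by
    intro p
    by_cases hp : p ∈ J
    · obtain ⟨T0, hT0⟩ := h1 p.1 p.2 (ε / 2 / (N + 1)) (hJ1 p hp) (by positivity)
      exact ⟨T0, fun _ T hT => hT0 T hT⟩
    · exact ⟨0, fun h => absurd h hp⟩
  choose T0 hT0 using hb
  refine ⟨max Tw (∑ p ∈ J, |T0 p|), fun T hT => ?_⟩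
  have hTw' := hTw T ((le_max_left _ _).trans hT)
  have hsub : ((NU (⋃ p ∈ J, Set.Ioo p.1 p.2) T).ncard : ℝ) ≤ ((NU U T).ncard : ℝ) := by
    exact_mod_cast Set.ncard_le_ncard (NU_mono hJ3 T) (NU_finite h4 U T)
  have hNZ := NZ_nonneg T
  have hsum : (2 / 3 * S - ε / 2) * NZ T ≤ ((NU (⋃ p ∈ J, Set.Ioo p.1 p.2) T).ncard : ℝ) := by
    refine le_trans ?_ (NU_sum h4 T J hJ2)
    have e1 : ∑ p ∈ J, (2 / 3 * (Qf p.1 - Qf p.2) - ε / 2 / (N + 1)) * NZ T ≤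
        ∑ p ∈ J, ((NU (Set.Ioo p.1 p.2) T).ncard : ℝ) := by
      refine Finset.sum_le_sum fun p hp => hT0 p hp T ?_
      have e2 : |T0 p| ≤ ∑ p ∈ J, |T0 p| :=
        Finset.single_le_sum (f := fun p => |T0 p|) (fun q _ => abs_nonneg _) hp
      exact (le_abs_self _).trans (e2.trans ((le_max_right _ _).trans hT))
    refine le_trans ?_ e1
    rw [← Finset.sum_mul]
    apply mul_le_mul_of_nonneg_right _ hNZ
    rw [Finset.sum_sub_distrib, ← Finset.mul_sum, Finset.sum_const, nsmul_eq_mul]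
    have e3 : (J.card : ℝ) * (ε / 2 / (N + 1)) ≤ ε / 2 := by
      rw [← hN, mul_div_assoc', div_le_iff₀ (by positivity)]
      nlinarith
    linarith
  rcases le_total (2 / 3 * μ) (μ - 8 / 27) with hm | hm
  · rw [max_eq_right hm]
    refine le_trans ?_ (hTw'.trans hsub)
    apply mul_le_mul_of_nonneg_right _ hNZ
    linarith
  · rw [max_eq_left hm]
    refine le_trans ?_ (hsum.trans hsub)
    apply mul_le_mul_of_nonneg_right _ hNZ
    linarith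

/-- module UPN -/
theorem upn (h1 : FguStatement) : UpnStatement := by
  intro x ε hε
  have e : (ProbabilityTheory.gaussianReal 0 1).real (Set.Ioi x) = Qf x :=
    QZ.H17.gaussian_Ioi x
  rw [e]
  exact h1 x ε hε

end Pool.Agent.Lib.MP_6bc78b_nt.MS.GL.H81
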