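import Pool.Agent.Lib.MP_6bc78b_nt.MS.GL.Iface2
import Pool.Agent.Lib.MP_6bc78b_nt.MS.GL.H81.Fgw
import Pool.Agent.Lib.MP_6bc78b_nt.MS.GL.H81.Opn
import Pool.Agent.Lib.MP_6bc78b_nt.MS.GL.H78.Sep

/-! Project MS, Part GL, modules FGV and OPV (helper81): the union form with the constant of the
joined quadratic form. -/

set_option autoImplicit false

open Complex Filter Topology MeasureTheory ArithmeticFunction

namespace Pool.Agent.Lib.MP_6bc78b_nt.MS.GL.H81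

open Pool.Agent.Lib.MP_6bc78b_nt Pool.Agent.Lib.MP_6bc78b_nt.MS
  Pool.Agent.Lib.MP_6bc78b_nt.MS.P1 Pool.Agent.Lib.MP_6bc78b_nt.MS.QZ
  Pool.Agent.Lib.MP_6bc78b_nt.MS.GL

/-- the discrepancy between `log |ζ'|` and its approximation -/
noncomputable def DZ (T γ : ℝ) : ℝ := Real.log ‖deriv riemannZeta (1 / 2 + γ * I)‖ -
    Real.log (Real.log T) - (P0 T γ).re

/-- The zeros that are not simple or for which the approximation fails have relative weight at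
most `q`. -/
def GoodQ (q : ℝ) : Prop := ∀ e : ℝ, 0 < e → ∀ᶠ T : ℝ in atTop,
  ∑ᶠ γ ∈ {γ | γ ∈ zset T ∧ ¬ (mz γ = 1 ∧ |DZ T γ| ≤ e * Real.sqrt (ll T))},
    (mz γ : ℝ) * wt T γ ≤ (q + e) * (cG T * Real.log T)

/-- The union form with the constant `q`. -/
def UnionQ (q : ℝ) : Prop := ∀ (J : Finset (ℝ × ℝ)) (ε : ℝ), 0 < ε → (∀ p ∈ J, p.1 < p.2) →
  (J : Set (ℝ × ℝ)).PairwiseDisjoint (fun p => Set.Ioo p.1 p.2) →
  ∃ T0 : ℝ, ∀ T : ℝ, T0 ≤ T →
    (∑ p ∈ J, (Qf p.1 - Qf p.2) - q - ε) * NZ T ≤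
      ((NU (⋃ p ∈ J, Set.Ioo p.1 p.2) T).ncard : ℝ)

/-- the core of FGV -/
theorem core {q : ℝ} (h1 : GoodQ q) (h2 : FarStatement) (h4 : LitStatement)
    (h5 : CnlStatement) (h6 : DhzStatement) (h7 : ZfacStatement)
    (h8 : QsyStatement) (h9 : QfcStatement) : UnionQ q := by
  classical
  have hZ := h7
  obtain ⟨z1, z2, z3, z4, z5, z6, z7⟩ := h7
  intro J ε hε hJ hJd
  by_cases hq0 : ∑ p ∈ J, (Qf p.1 - Qf p.2) - q - ε / 2 ≤ 0
  · refine ⟨0, fun T _ => ?_⟩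
    have h10 : (∑ p ∈ J, (Qf p.1 - Qf p.2) - q - ε) * NZ T ≤ 0 :=
      mul_nonpos_of_nonpos_of_nonneg (by linarith) (NZ_nonneg T)
    exact h10.trans (Nat.cast_nonneg _)
  rw [not_le] at hq0
  -- parameters
  obtain ⟨d, hd0, hd⟩ := exists_len J hJ
  set N : ℝ := (J.card : ℝ) with hN
  have hN0 : 0 ≤ N := Nat.cast_nonneg _
  obtain ⟨η, hη0, hη1, hη2, hη3⟩ : ∃ η : ℝ, 0 < η ∧ 2 * N * η ≤ ε / 16 ∧ η ≤ ε / 16 ∧
      4 * η ≤ d := by
    refine ⟨min (ε / 16 / (2 * N + 1)) (d / 4), lt_min (by positivity) (by positivity),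
      ?_, ?_, ?_⟩
    · have h11 : min (ε / 16 / (2 * N + 1)) (d / 4) ≤ ε / 16 / (2 * N + 1) := min_le_left _ _
      rw [le_div_iff₀ (by positivity)] at h11
      have h12 : 0 < min (ε / 16 / (2 * N + 1)) (d / 4) :=
        lt_min (by positivity) (by positivity)
      nlinarith
    · refine (min_le_left _ _).trans ?_
      rw [div_le_iff₀ (by positivity)]
      nlinarith
    · have := min_le_right (ε / 16 / (2 * N + 1)) (d / 4)
      linarith
  set e2 : ℝ := η / 4 with he2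
  have he20 : 0 < e2 := by positivity
  set u : ℝ × ℝ → ℝ := fun p => -p.2 + η with hu
  set v : ℝ × ℝ → ℝ := fun p => -p.1 - η with hv
  have huv : ∀ p ∈ J, u p ≤ v p := by
    intro p hp
    have := hd p hp
    simp only [hu, hv]
    linarith
  have hdis : ∀ p ∈ J, ∀ q ∈ J, p ≠ q → ∀ y : ℝ,
      ¬ ((u p < y ∧ y ≤ v p) ∧ (u q < y ∧ y ≤ v q)) := by
    intro p hp q hq hpq y hy
    have h11 := Set.disjoint_left.1 (hJd hp hq hpq)
    simp only [hu, hv] at hy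
    exact h11 (a := -y) ⟨by linarith [hy.1.2], by linarith [hy.1.1]⟩
      ⟨by linarith [hy.2.2], by linarith [hy.2.1]⟩
  have hQ : ∑ p ∈ J, (Qf p.1 - Qf p.2) - ε / 16 ≤ ∑ p ∈ J, (Qf (u p) - Qf (v p)) := by
    have h11 : ∀ p ∈ J, Qf p.1 - Qf p.2 - 2 * η ≤ Qf (u p) - Qf (v p) := by
      intro p hp
      have q1 := (h9 (-p.2) (u p) (by simp only [hu]; linarith)).2.2.1
      have q2 := (h9 (v p) (-p.1) (by simp only [hv]; linarith)).2.2.1
      have q3 := (h8 p.1 p.2 (hJ p hp).le).1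
      have q4 : u p - -p.2 = η := by simp only [hu]; ring
      have q5 : -p.1 - v p = η := by simp only [hv]; ring
      linarith
    have h12 := Finset.sum_le_sum h11
    rw [Finset.sum_sub_distrib, Finset.sum_const, nsmul_eq_mul] at h12
    have h13 : (J.card : ℝ) * (2 * η) = 2 * N * η := by rw [hN]; ring
    linarith
  obtain ⟨A, hA, hFar⟩ := h2 (ε / 16) (by positivity)
  have hB := h1 e2 he20
  have hLu : ∀ᶠ T : ℝ in atTop, ∀ p ∈ J,
      |∑ᶠ γ ∈ {γ | γ ∈ zset T ∧ u p < X0 T γ}, (mz γ : ℝ) * wt T γ -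
        Qf (u p) * (cG T * Real.log T)| ≤ η * (cG T * Real.log T) :=
    (Filter.eventually_all_finset J).2 fun p _ => h4 (u p) η hη0
  have hLv : ∀ᶠ T : ℝ in atTop, ∀ p ∈ J,
      |∑ᶠ γ ∈ {γ | γ ∈ zset T ∧ v p < X0 T γ}, (mz γ : ℝ) * wt T γ -
        Qf (v p) * (cG T * Real.log T)| ≤ η * (cG T * Real.log T) :=
    (Filter.eventually_all_finset J).2 fun p _ => h4 (v p) η hη0
  set H : ℝ → Set ℝ := fun T => {γ | (γ ∈ zset T ∧ |γ - T| ≤ A * DD T) ∧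
    (∃ p ∈ J, u p < X0 T γ ∧ X0 T γ ≤ v p) ∧ mz γ = 1 ∧ |DZ T γ| ≤ e2 * Real.sqrt (ll T)} with hH
  have hev : ∀ᶠ T : ℝ in atTop, H T ⊆ {γ : ℝ | γ ∈ zset T ∧ |γ - T| ≤ A * DD T} ∧
      (∑ p ∈ J, (Qf p.1 - Qf p.2) - q - ε / 2) * (cG T * Real.log T) ≤
        ∑ᶠ γ ∈ H T, (fun _ => (1 : ℝ)) γ * wt T γ := by
    filter_upwards [hFar, hB, hLu, hLv, eventually_gt_atTop 3] with T hT1 hT2 hT4 hT5 hT8
    refine ⟨fun γ hγ => hγ.1, ?_⟩
    have hL : 0 < Real.log T := Real.log_pos (by linarith)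
    have hp : 0 < cG T * Real.log T := mul_pos (cG_pos (by linarith)) hL
    set P := cG T * Real.log T with hP
    have f0 : (zset T).Finite := z7 T
    set W := f0.toFinset with hW
    set f : ℝ → ℝ := fun γ => (mz γ : ℝ) * wt T γ with hf
    have hf0 : ∀ γ, 0 ≤ f γ := fun γ => mul_nonneg (Nat.cast_nonneg _) (wt_pos T γ).le
    have conv : ∀ (q : ℝ → Prop) [DecidablePred q] (g : ℝ → ℝ),
        ∑ᶠ γ ∈ {γ | γ ∈ zset T ∧ q γ}, g γ = ∑ γ ∈ W.filter q, g γ := by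
      intro q _ g
      have f1 : {γ | γ ∈ zset T ∧ q γ}.Finite := f0.subset fun γ hγ => hγ.1
      rw [finsum_mem_eq_finite_toFinset_sum _ f1]
      apply Finset.sum_congr _ fun _ _ => rfl
      ext γ
      simp [hW]
    have hsl := slices (J := J) (e := η) (T := T) (u := u) (v := v) (W := W) (f := f)
      (X := X0 T) (P := P) hf0 huv hdis
      (fun p hp => by
        rw [← conv (fun γ => u p < X0 T γ) f]
        exact hT4 p hp)
      (fun p hp => by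
        rw [← conv (fun γ => v p < X0 T γ) f]
        exact hT5 p hp)
    set B1 := W.filter (fun γ => A * DD T < |γ - T|) with hB1
    have hB1s : ∑ γ ∈ B1, f γ ≤ ε / 16 * P := by
      have e1 := conv (fun γ => A * DD T < |γ - T|) f
      exact le_trans (le_of_eq e1.symm) hT1
    set B2 := W.filter (fun γ => ¬ (mz γ = 1 ∧ |DZ T γ| ≤ e2 * Real.sqrt (ll T))) with hB2
    have hB2s : ∑ γ ∈ B2, f γ ≤ (q + e2) * P := by
      have e1 := conv (fun γ => ¬ (mz γ = 1 ∧ |DZ T γ| ≤ e2 * Real.sqrt (ll T))) f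
      exact le_trans (le_of_eq e1.symm) hT2
    set S := W.filter (fun γ => ∃ p ∈ J, u p < X0 T γ ∧ X0 T γ ≤ v p) with hS
    set HH := W.filter (fun γ => |γ - T| ≤ A * DD T ∧
      (∃ p ∈ J, u p < X0 T γ ∧ X0 T γ ≤ v p) ∧ mz γ = 1 ∧
        |DZ T γ| ≤ e2 * Real.sqrt (ll T)) with hHH
    have hsum : ∑ᶠ γ ∈ H T, (fun _ => (1 : ℝ)) γ * wt T γ = ∑ γ ∈ HH, wt T γ := by
      have e1 := conv (fun γ => |γ - T| ≤ A * DD T ∧
        (∃ p ∈ J, u p < X0 T γ ∧ X0 T γ ≤ v p) ∧ mz γ = 1 ∧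
        |DZ T γ| ≤ e2 * Real.sqrt (ll T)) (fun γ => wt T γ)
      refine Eq.trans ?_ e1
      have e2' : H T = {γ | γ ∈ zset T ∧ |γ - T| ≤ A * DD T ∧
        (∃ p ∈ J, u p < X0 T γ ∧ X0 T γ ≤ v p) ∧ mz γ = 1 ∧
        |DZ T γ| ≤ e2 * Real.sqrt (ll T)} := by
        ext γ
        constructor
        · rintro ⟨⟨a1, a2⟩, a3⟩
          exact ⟨a1, a2, a3⟩
        · rintro ⟨a1, a2, a3⟩
          exact ⟨⟨a1, a2⟩, a3⟩
      refine finsum_mem_congr e2' fun γ _ => ?_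
      simp only [one_mul]
    have hHHf : ∑ γ ∈ HH, wt T γ = ∑ γ ∈ HH, f γ := by
      refine Finset.sum_congr rfl fun γ hγ => ?_
      have hm : mz γ = 1 := (Finset.mem_filter.1 hγ).2.2.2.1
      simp only [hf, hm, Nat.cast_one, one_mul]
    rw [hsum, hHHf]
    have hcov : ∑ γ ∈ S, f γ ≤ ∑ γ ∈ HH, f γ + ∑ γ ∈ B1, f γ + ∑ γ ∈ B2, f γ := by
      have hsub : S ⊆ (HH ∪ B1) ∪ B2 := by
        intro γ hγ
        obtain ⟨g1, g2⟩ := Finset.mem_filter.1 hγ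
        by_cases c1 : A * DD T < |γ - T|
        · exact Finset.mem_union_left _ (Finset.mem_union_right _ (Finset.mem_filter.2 ⟨g1, c1⟩))
        by_cases c2 : mz γ = 1 ∧ |DZ T γ| ≤ e2 * Real.sqrt (ll T)
        · exact Finset.mem_union_left _ (Finset.mem_union_left _
            (Finset.mem_filter.2 ⟨g1, not_lt.1 c1, g2, c2⟩))
        · exact Finset.mem_union_right _ (Finset.mem_filter.2 ⟨g1, c2⟩)
      have i1 : ∑ γ ∈ S, f γ ≤ ∑ γ ∈ (HH ∪ B1) ∪ B2, f γ :=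
        Finset.sum_le_sum_of_subset_of_nonneg hsub fun γ _ _ => hf0 γ
      have un : ∀ s t : Finset ℝ, ∑ γ ∈ s ∪ t, f γ ≤
          ∑ γ ∈ s, f γ + ∑ γ ∈ t, f γ := by
        intro s t
        rw [← Finset.sum_union_inter]
        have : 0 ≤ ∑ γ ∈ s ∩ t, f γ := Finset.sum_nonneg fun γ _ => hf0 γ
        linarith
      have i2 := un (HH ∪ B1) B2
      have i3 := un HH B1
      linarith
    -- conclusion
    have l1 := mul_le_mul_of_nonneg_right hQ hp.le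
    have l2 : 2 * (J.card : ℝ) * η * P ≤ ε / 16 * P := by
      apply mul_le_mul_of_nonneg_right _ hp.le
      exact hη1
    have l3 : e2 * P ≤ ε / 64 * P := by
      apply mul_le_mul_of_nonneg_right _ hp.le
      rw [he2]
      linarith
    have l5 : 0 ≤ ε * P := by positivity
    linarith
  -- the transfer
  have htr : ∃ X1 : ℝ, 40 ≤ X1 ∧ ∀ p ∈ J, ∀ T γ : ℝ, X1 ≤ T → γ ∈ zset T → mz γ = 1 →
      -p.2 + η < X0 T γ → X0 T γ ≤ -p.1 - η →
      |Real.log ‖deriv riemannZeta (1 / 2 + γ * I)‖ - Real.log (Real.log T) - (P0 T γ).re| ≤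
        η / 4 * Real.sqrt (ll T) →
      hardyZ γ = 0 ∧ deriv hardyZ γ ≠ 0 ∧ p.1 < YZ γ ∧ YZ γ < p.2 := by
    choose X hX1 hX2 using fun p : ℝ × ℝ => transfer h6 hZ (a := p.1) (b := p.2) hη0
    refine ⟨40 + ∑ p ∈ J, X p, ?_, fun p hp T γ hT => hX2 p T γ (le_trans ?_ hT)⟩
    · have : 0 ≤ ∑ p ∈ J, X p := Finset.sum_nonneg fun p _ => by linarith [hX1 p]
      linarith
    · have : X p ≤ ∑ p ∈ J, X p :=
        Finset.single_le_sum (f := X) (fun q _ => by linarith [hX1 q]) hp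
      linarith
  obtain ⟨X1, hX1, htr⟩ := htr
  obtain ⟨T0, hT0⟩ := h5 (∑ p ∈ J, (Qf p.1 - Qf p.2) - q - ε / 2) A (ε / 2) (fun _ => 1) H
    hq0 hA (by positivity) (fun _ => zero_le_one) hev X1
  refine ⟨T0, fun T hT => ?_⟩
  obtain ⟨hfin, hle⟩ := hT0 T hT
  have hle2 : (∑ p ∈ J, (Qf p.1 - Qf p.2) - q - ε) * NZ T ≤
      ((SH H A X1 T).ncard : ℝ) := by
    have e3 : ∑ᶠ γ ∈ SH H A X1 T, (fun _ => (1 : ℝ)) γ = ((SH H A X1 T).ncard : ℝ) := by
      rw [finsum_mem_eq_finite_toFinset_sum _ hfin, Finset.sum_const, nsmul_eq_mul, mul_one,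
        Set.ncard_eq_toFinset_card _ hfin]
    rw [e3] at hle
    have e4 : (∑ p ∈ J, (Qf p.1 - Qf p.2) - q - ε) * NZ T =
      (∑ p ∈ J, (Qf p.1 - Qf p.2) - q - ε / 2 - ε / 2) * NZ T := by ring
    rw [e4]
    exact hle
  refine hle2.trans ?_
  have hsub : SH H A X1 T ⊆ NU (⋃ p ∈ J, Set.Ioo p.1 p.2) T := by
    rintro γ ⟨g1, T', g2, g3, g4, g5⟩
    obtain ⟨-, ⟨p, hp, k1, k2⟩, k3, k4⟩ := g3
    obtain ⟨d1, d2, d3, d4⟩ := htr p hp T' γ g2 g4 k3 k1 k2 k4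
    refine ⟨by linarith [g4.1], g1, d1, d2, ?_⟩
    rw [Set.mem_iUnion₂]
    exact ⟨p, hp, d3, d4⟩
  exact_mod_cast Set.ncard_le_ncard hsub (NU_finite hZ _ T)

/-- the good zeros -/
theorem goodv (h1 : BdzStatement) (h2 : TyjStatement) (h3 : CmuStatement) (h4 : CmpStatement)
    (h7 : ZfacStatement) : GoodQ 0.29295 := by
  classical
  obtain ⟨z1, z2, z3, z4, z5, z6, z7⟩ := h7
  intro e he
  obtain ⟨th, c1, c2, c, ηG, hth0, hth, hc0, hc1, hηG, hBD⟩ := h1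
  have hT := h2 th c1 c2 (min (e / 4) (e / 2)) hth0 hth (by positivity)
  have hCU := h3 (e / 4) (by positivity)
  have hCP := h4 c (e / 4) hc0 hc1 (by positivity)
  have hsc : ∀ᶠ T : ℝ in atTop, -Real.log ηG ≤ e / 2 * Real.sqrt (ll T) := by
    have h11 : Tendsto (fun T : ℝ => e / 2 * Real.sqrt (ll T)) atTop atTop := by
      apply Tendsto.const_mul_atTop (by positivity)
      exact Real.tendsto_sqrt_atTop.comp (Real.tendsto_log_atTop.comp Real.tendsto_log_atTop)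
    exact h11.eventually_ge_atTop _
  filter_upwards [hBD, hT, hCU, hCP, hsc, eventually_gt_atTop 3] with T hT1 hT2 hT3 hT4 hT7 hT8
  have hL : 0 < Real.log T := Real.log_pos (by linarith)
  have hp : 0 < cG T * Real.log T := mul_pos (cG_pos (by linarith)) hL
  set P := cG T * Real.log T with hP
  have f0 : (zset T).Finite := z7 T
  set W := f0.toFinset with hW
  set f : ℝ → ℝ := fun γ => (mz γ : ℝ) * wt T γ with hf
  have hf0 : ∀ γ, 0 ≤ f γ := fun γ => mul_nonneg (Nat.cast_nonneg _) (wt_pos T γ).le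
  have conv : ∀ (q : ℝ → Prop) [DecidablePred q] (g : ℝ → ℝ),
      ∑ᶠ γ ∈ {γ | γ ∈ zset T ∧ q γ}, g γ = ∑ γ ∈ W.filter q, g γ := by
    intro q _ g
    have f1 : {γ | γ ∈ zset T ∧ q γ}.Finite := f0.subset fun γ hγ => hγ.1
    rw [finsum_mem_eq_finite_toFinset_sum _ f1]
    apply Finset.sum_congr _ fun _ _ => rfl
    ext γ
    simp [hW]
  have hs0 : 0 ≤ Real.sqrt (ll T) := Real.sqrt_nonneg _
  set e3 := min (e / 4) (e / 2) with he3
  have he31 : e3 ≤ e / 4 := min_le_left _ _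
  have he32 : e3 ≤ e / 2 := min_le_right _ _
  set B1 := W.filter (fun γ => nC c T γ ≠ 1 ∧
    ‖vv th c1 c2 T (1 / 2 + γ * I)‖ ≤ ηG * Real.log T) with hB1
  have hB1s : ∑ γ ∈ B1, f γ ≤ 0.29295 * P := by
    have e1 := conv (fun γ => nC c T γ ≠ 1 ∧
      ‖vv th c1 c2 T (1 / 2 + γ * I)‖ ≤ ηG * Real.log T) f
    exact le_trans (le_of_eq e1.symm) hT1
  set B2 := W.filter (fun γ => Real.exp (e3 * Real.sqrt (ll T) - (P0 T γ).re) <
    ‖MM th c1 c2 T (1 / 2 + γ * I)‖) with hB2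
  have hB2s : ∑ γ ∈ B2, f γ ≤ e / 4 * P := by
    have e1 := conv (fun γ => Real.exp (e3 * Real.sqrt (ll T) - (P0 T γ).re) <
      ‖MM th c1 c2 T (1 / 2 + γ * I)‖) f
    exact le_trans (le_of_eq e1.symm) (le_trans hT2 (mul_le_mul_of_nonneg_right he31 hp.le))
  set B3 := W.filter (fun γ => mz γ = 1 ∧ e / 4 * Real.sqrt (ll T) < DZ T γ) with hB3
  have hB3s : ∑ γ ∈ B3, f γ ≤ e / 4 * P := by
    have e1 := conv (fun γ => mz γ = 1 ∧ e / 4 * Real.sqrt (ll T) < DZ T γ) f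
    refine le_trans (le_of_eq e1.symm) (le_trans (le_of_eq ?_) hT3)
    refine finsum_mem_congr rfl fun γ hγ => ?_
    have hγ' : mz γ = 1 := hγ.2.1
    simp only [hf, hγ', Nat.cast_one, one_mul]
  set B4 := W.filter (fun γ => nC c T γ = 1 ∧ e / 4 * Real.sqrt (ll T) < |DZ T γ|) with hB4
  have hmz1 : ∀ γ ∈ zset T, nC c T γ = 1 → mz γ = 1 := by
    intro γ hγ hn
    obtain ⟨n, hn1, hn2⟩ := H78.nC_nat (c := c) (T := T) (γ := γ) hc0.le (by linarith)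
    have hm : 1 ≤ mz γ := z3 γ hγ.2.2
    have h5 : n = 1 := by
      rw [hn1] at hn
      exact_mod_cast hn
    omega
  have hB4s : ∑ γ ∈ B4, f γ ≤ e / 4 * P := by
    have e1 := conv (fun γ => nC c T γ = 1 ∧ e / 4 * Real.sqrt (ll T) < |DZ T γ|) f
    refine le_trans (le_of_eq e1.symm) (le_trans (le_of_eq ?_) hT4)
    refine finsum_mem_congr rfl fun γ hγ => ?_
    have hγ' : mz γ = 1 := hmz1 γ hγ.1 hγ.2.1
    simp only [hf, hγ', Nat.cast_one, one_mul]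
  have e0 := conv (fun γ => ¬ (mz γ = 1 ∧ |DZ T γ| ≤ e * Real.sqrt (ll T))) f
  refine le_trans (le_of_eq e0) ?_
  set S := W.filter (fun γ => ¬ (mz γ = 1 ∧ |DZ T γ| ≤ e * Real.sqrt (ll T))) with hS
  have hsub : S ⊆ ((B1 ∪ B2) ∪ B3) ∪ B4 := by
    intro γ hγ
    obtain ⟨g1, g2⟩ := Finset.mem_filter.1 hγ
    have g1' : γ ∈ zset T := by simpa [hW] using g1
    have hes : e / 4 * Real.sqrt (ll T) ≤ e * Real.sqrt (ll T) :=
      mul_le_mul_of_nonneg_right (by linarith) hs0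
    by_cases k1 : nC c T γ = 1
    · -- isolated zeros
      have hm := hmz1 γ g1' k1
      refine Finset.mem_union_right _ (Finset.mem_filter.2 ⟨g1, k1, ?_⟩)
      by_contra h
      rw [not_lt] at h
      exact g2 ⟨hm, h.trans hes⟩
    by_cases k2 : ‖vv th c1 c2 T (1 / 2 + γ * I)‖ ≤ ηG * Real.log T
    · exact Finset.mem_union_left _ (Finset.mem_union_left _
        (Finset.mem_union_left _ (Finset.mem_filter.2 ⟨g1, k1, k2⟩)))
    rw [not_le] at k2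
    by_cases k3 : Real.exp (e3 * Real.sqrt (ll T) - (P0 T γ).re) <
      ‖MM th c1 c2 T (1 / 2 + γ * I)‖
    · exact Finset.mem_union_left _ (Finset.mem_union_left _
        (Finset.mem_union_right _ (Finset.mem_filter.2 ⟨g1, k3⟩)))
    rw [not_lt] at k3
    have hvpos : 0 < ‖vv th c1 c2 T (1 / 2 + γ * I)‖ := lt_trans (mul_pos hηG hL) k2
    have hvne : vv th c1 c2 T (1 / 2 + γ * I) ≠ 0 := norm_pos_iff.1 hvpos
    unfold vv at hvne
    have hζ : deriv riemannZeta (1 / 2 + γ * I) ≠ 0 := left_ne_zero_of_mul hvne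
    have hMne : MM th c1 c2 T (1 / 2 + γ * I) ≠ 0 := right_ne_zero_of_mul hvne
    have hm1' : 1 ≤ mz γ := z3 γ g1'.2.2
    have hm2' : ¬ 2 ≤ mz γ := fun h => hζ (z5 γ h)
    have hm : mz γ = 1 := by omega
    refine Finset.mem_union_left _ (Finset.mem_union_right _
      (Finset.mem_filter.2 ⟨g1, hm, ?_⟩))
    by_contra h
    rw [not_lt] at h
    apply g2
    refine ⟨hm, abs_le.2 ⟨?_, h.trans hes⟩⟩
    have j1 : Real.log ‖MM th c1 c2 T (1 / 2 + γ * I)‖ ≤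
        e3 * Real.sqrt (ll T) - (P0 T γ).re := by
      rw [Real.log_le_iff_le_exp (norm_pos_iff.2 hMne)]
      exact k3
    have j2 : Real.log ηG + Real.log (Real.log T) ≤
        Real.log ‖deriv riemannZeta (1 / 2 + γ * I)‖ +
          Real.log ‖MM th c1 c2 T (1 / 2 + γ * I)‖ := by
      rw [← Real.log_mul hηG.ne' hL.ne', ← Real.log_mul (norm_ne_zero_iff.2 hζ)
        (norm_ne_zero_iff.2 hMne), ← norm_mul]
      exact Real.log_le_log (mul_pos hηG hL) k2.le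
    have j3 : e3 * Real.sqrt (ll T) ≤ e / 2 * Real.sqrt (ll T) :=
      mul_le_mul_of_nonneg_right he32 hs0
    unfold DZ
    linarith
  have i1 : ∑ γ ∈ S, f γ ≤ ∑ γ ∈ ((B1 ∪ B2) ∪ B3) ∪ B4, f γ :=
    Finset.sum_le_sum_of_subset_of_nonneg hsub fun γ _ _ => hf0 γ
  have un : ∀ s t : Finset ℝ, ∑ γ ∈ s ∪ t, f γ ≤
      ∑ γ ∈ s, f γ + ∑ γ ∈ t, f γ := by
    intro s t
    rw [← Finset.sum_union_inter]
    have : 0 ≤ ∑ γ ∈ s ∩ t, f γ := Finset.sum_nonneg fun γ _ => hf0 γ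
    linarith
  have i2 := un ((B1 ∪ B2) ∪ B3) B4
  have i3 := un (B1 ∪ B2) B3
  have i4 := un B1 B2
  have i5 : (0.29295 + e) * P = 0.29295 * P + e * P := by ring
  rw [i5]
  have i6 : 0 ≤ e * P := by positivity
  linarith

/-- module FGV -/
theorem fgv (h1 : BdzStatement) (h2 : TyjStatement) (h3 : CmuStatement) (h4 : CmpStatement)
    (h5 : FarStatement) (h6 : LitStatement) (h7 : CnlStatement) (h8 : DhzStatement)
    (h9 : ZfacStatement) (h10 : QsyStatement) (h11 : QfcStatement) : FgvStatement :=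
  core (goodv h1 h2 h3 h4 h9) h5 h6 h7 h8 h9 h10 h11

/-- the open sets, with a general constant -/
theorem open_core {q : ℝ} (h1 : FgbStatement) (h2 : UnionQ q) (h3 : OpaStatement)
    (h4 : ZfacStatement) (U : Set ℝ) (ε : ℝ) (hU : IsOpen U) (hε : 0 < ε) :
    ∃ T0 : ℝ, ∀ T : ℝ, T0 ≤ T →
    (max (2 / 3 * (ProbabilityTheory.gaussianReal 0 1).real U)
      ((ProbabilityTheory.gaussianReal 0 1).real U - q) - ε) * NZ T ≤ ((NU U T).ncard : ℝ) := by
  classical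
  obtain ⟨J, hJ1, hJ2, hJ3, hJ4⟩ := h3 U (ε / 2) hU (by positivity)
  set μ := (ProbabilityTheory.gaussianReal 0 1).real U with hμ
  set S := ∑ p ∈ J, (Qf p.1 - Qf p.2) with hS
  set N : ℝ := (J.card : ℝ) with hN
  have hN0 : 0 ≤ N := Nat.cast_nonneg _
  obtain ⟨Tw, hTw⟩ := h2 J (ε / 2) (by positivity) hJ1 hJ2
  have hb : ∀ p : ℝ × ℝ, ∃ T0 : ℝ, p ∈ J → ∀ T : ℝ, T0 ≤ T →
      (2 / 3 * (Qf p.1 - Qf p.2) - ε / 2 / (N + 1)) * NZ T ≤
        ((NU (Set.Ioo p.1 p.2) T).ncard : ℝ) := by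
    intro p
    by_cases hp : p ∈ J
    · obtain ⟨T0, hT0⟩ := h1 p.1 p.2 (ε / 2 / (N + 1)) (hJ1 p hp) (by positivity)
      exact ⟨T0, fun _ T hT => hT0 T hT⟩
    · exact ⟨0, fun h => absurd h hp⟩
  choose T0 hT0 using hb
  refine ⟨max Tw (∑ p ∈ J, |T0 p|), fun T hT => ?_⟩
  have hTw' := hTw T ((le_max_left _ _).trans hT)
  have hsub : ((NU (⋃ p ∈ J, Set.Ioo p.1 p.2) T).ncard : ℝ) ≤ ((NU U T).ncard : ℝ) := by
    exact_mod_cast Set.ncard_le_ncard (NU_mono hJ3 T) (NU_finite h4 U T)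
  have hNZ := NZ_nonneg T
  have hsum : (2 / 3 * S - ε / 2) * NZ T ≤ ((NU (⋃ p ∈ J, Set.Ioo p.1 p.2) T).ncard : ℝ) := by
    refine le_trans ?_ (NU_sum h4 T J hJ2)
    have e1 : ∑ p ∈ J, (2 / 3 * (Qf p.1 - Qf p.2) - ε / 2 / (N + 1)) * NZ T ≤
        ∑ p ∈ J, ((NU (Set.Ioo p.1 p.2) T).ncard : ℝ) := by
      refine Finset.sum_le_sum fun p hp => hT0 p hp T ?_
      have e2 : |T0 p| ≤ ∑ p ∈ J, |T0 p| :=
        Finset.single_le_sum (f := fun p => |T0 p|) (fun q _ => abs_nonneg _) hp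
      exact (le_abs_self _).trans (e2.trans ((le_max_right _ _).trans hT))
    refine le_trans ?_ e1
    rw [← Finset.sum_mul]
    apply mul_le_mul_of_nonneg_right _ hNZ
    rw [Finset.sum_sub_distrib, ← Finset.mul_sum, Finset.sum_const, nsmul_eq_mul]
    have e3 : (J.card : ℝ) * (ε / 2 / (N + 1)) ≤ ε / 2 := by
      rw [← hN, mul_div_assoc', div_le_iff₀ (by positivity)]
      nlinarith
    linarith
  rcases le_total (2 / 3 * μ) (μ - q) with hm | hm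
  · rw [max_eq_right hm]
    refine le_trans ?_ (hTw'.trans hsub)
    apply mul_le_mul_of_nonneg_right _ hNZ
    linarith
  · rw [max_eq_left hm]
    refine le_trans ?_ (hsum.trans hsub)
    apply mul_le_mul_of_nonneg_right _ hNZ
    linarith

/-- module OPV -/
theorem opv (h1 : FgbStatement) (h2 : FgvStatement) (h3 : OpaStatement)
    (h4 : ZfacStatement) : OpvStatement :=
  fun U ε hU hε => open_core h1 h2 h3 h4 U ε hU hε

end Pool.Agent.Lib.MP_6bc78b_nt.MS.GL.H81
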