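import Pool.Agent.Lib.MP_6bc78b_nt.MS.GL.Iface2
import Pool.Agent.Lib.MP_6bc78b_nt.MS.GL.H81.Tools
import Pool.Agent.Lib.MP_6bc78b_nt.MS.GL.H78.Sep

/-! Project MS, Part GL, module BDZ (helper81). -/

set_option autoImplicit false

open Complex Filter Topology MeasureTheory ArithmeticFunction

namespace Pool.Agent.Lib.MP_6bc78b_nt.MS.GL.H81

open Pool.Agent.Lib.MP_6bc78b_nt Pool.Agent.Lib.MP_6bc78b_nt.MS
  Pool.Agent.Lib.MP_6bc78b_nt.MS.P1 Pool.Agent.Lib.MP_6bc78b_nt.MS.QZ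
  Pool.Agent.Lib.MP_6bc78b_nt.MS.GL

/-- the pointwise lower bound of the quadratic form at a bad zero -/
lemma bad_point {v B : ℂ} {L lam be n s η C : ℝ} (hL : 0 < L) (hv : ‖v‖ ≤ η * L)
    (hbe0 : 0 ≤ be) (hbe1 : be ≤ 1) (hn : 2 ≤ n)
    (hW : (1 - (1 / 2000 : ℝ) ^ 2) * n ≤ 1 / lam - 2 * B.re + C)
    (hC : C ≤ 2 * s) (hs0 : 0 ≤ s) (hs : s + η ≤ 4 / 10 ^ 7) :
    (1 - 13 / 10 ^ 7 : ℝ) ≤
      ‖1 - v / (L : ℂ) - (be : ℂ) * (((1 - 1 / (2 * lam) : ℝ) : ℂ) + B)‖ ^ 2 := by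
  set z : ℂ := 1 - v / (L : ℂ) - (be : ℂ) * (((1 - 1 / (2 * lam) : ℝ) : ℂ) + B) with hz
  have h1 : z.re = 1 - (v / (L : ℂ)).re - be * ((1 - 1 / (2 * lam)) + B.re) := by
    rw [hz]
    simp
  have h2 : (v / (L : ℂ)).re ≤ η := by
    refine (Complex.re_le_norm _).trans ?_
    rw [norm_div, Complex.norm_real, Real.norm_eq_abs, abs_of_pos hL, div_le_iff₀ hL]
    exact hv
  have h3 : (1 - 1 / (2 * lam)) + B.re ≤ (1 / 2000 : ℝ) ^ 2 + s := by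
    have e : (1 : ℝ) / (2 * lam) = 1 / lam / 2 := by
      rw [div_div, mul_comm]
    rw [e]
    nlinarith
  have h4 : be * ((1 - 1 / (2 * lam)) + B.re) ≤ (1 / 2000 : ℝ) ^ 2 + s := by
    refine (mul_le_mul_of_nonneg_left h3 hbe0).trans ?_
    have : 0 ≤ (1 / 2000 : ℝ) ^ 2 + s := by positivity
    nlinarith
  have h5 : 1 - 65 / 10 ^ 8 ≤ z.re := by
    rw [h1]
    have e5 : ((1 : ℝ) / 2000) ^ 2 = 25 / 10 ^ 8 := by norm_num
    rw [e5] at h4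
    linarith
  have h6 : z.re ≤ ‖z‖ := Complex.re_le_norm _
  have h7 : (0 : ℝ) ≤ ‖z‖ := norm_nonneg _
  have h8 : (1 - 65 / 10 ^ 8 : ℝ) ≤ ‖z‖ := h5.trans h6
  have h9 : (1 - 65 / 10 ^ 8 : ℝ) ^ 2 ≤ ‖z‖ ^ 2 :=
    pow_le_pow_left₀ (by norm_num) h8 2
  refine le_trans ?_ h9
  norm_num

/-- module BDZ -/
theorem bdz (h1 : PtcStatement) (h2 : QslStatement) (h3 : NumStatement) (h4 : ZfacStatement) :
    BdzStatement := by
  classical
  obtain ⟨th, lam, c1, c2, be, a1, a2, a3, a4, a5, a6, a7⟩ := h3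
  obtain ⟨C, hC, hP⟩ := h1 (1 - lam) (by linarith) (by linarith)
  refine ⟨th, c1, c2, 1 / 2000, 2 / 10 ^ 7, a1, a2, by norm_num, by norm_num, by positivity, ?_⟩
  have hlam : 0 < lam := by linarith
  have hlim := (h2 th lam c1 c2 be a1 a2 a3 a4).eventually_lt_const a7
  have hl1 : Tendsto (fun T : ℝ => lam * Real.log T) atTop atTop :=
    Real.tendsto_log_atTop.const_mul_atTop hlam
  filter_upwards [hlim, eventually_ge_atTop (6 : ℝ), hl1.eventually_ge_atTop 1,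
    hl1.eventually_ge_atTop (C * 10 ^ 7)] with T hT1 hT6 hl hlC
  have hL : 0 < Real.log T := Real.log_pos (by linarith)
  have hp : 0 < cG T * Real.log T := mul_pos (cG_pos (by linarith)) hL
  rw [div_lt_iff₀ hp] at hT1
  have hf : (zset T).Finite := h4.2.2.2.2.2.2 T
  set F : ℝ → ℝ := fun γ => (mz γ : ℝ) * wt T γ *
    ‖1 - vv th c1 c2 T (1 / 2 + γ * I) / (Real.log T : ℂ)
      - (be : ℂ) * (((1 - 1 / (2 * lam) : ℝ) : ℂ) + BB lam T (1 / 2 + γ * I))‖ ^ 2 with hF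
  have hF0 : ∀ γ : ℝ, 0 ≤ F γ := fun γ =>
    mul_nonneg (mul_nonneg (Nat.cast_nonneg _) (wt_pos T γ).le) (sq_nonneg _)
  have hQS : QS th lam c1 c2 be T = ∑ γ ∈ hf.toFinset, F γ := by
    unfold QS
    rw [finsum_mem_eq_finite_toFinset_sum _ hf]
  set Bd : Set ℝ := {γ | γ ∈ zset T ∧ (nC (1 / 2000) T γ ≠ 1 ∧
    ‖vv th c1 c2 T (1 / 2 + γ * I)‖ ≤ 2 / 10 ^ 7 * Real.log T)} with hBd
  have hBf : Bd.Finite := hf.subset fun γ hγ => hγ.1
  have hkey : (1 - 13 / 10 ^ 7 : ℝ) * ∑ᶠ γ ∈ Bd, (mz γ : ℝ) * wt T γ ≤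
      QS th lam c1 c2 be T := by
    rw [hQS, finsum_mem_eq_finite_toFinset_sum _ hBf, Finset.mul_sum]
    have hsub : hBf.toFinset ⊆ hf.toFinset := by
      intro γ hγ
      rw [Set.Finite.mem_toFinset] at hγ ⊢
      exact hγ.1
    refine le_trans ?_ (Finset.sum_le_sum_of_subset_of_nonneg hsub fun γ _ _ => hF0 γ)
    refine Finset.sum_le_sum fun γ hγ => ?_
    rw [Set.Finite.mem_toFinset] at hγ
    obtain ⟨g1, g2, g3⟩ := hγ
    obtain ⟨n, hn1, hn2⟩ := H78.nC_nat (c := 1 / 2000) (T := T) (γ := γ) (by norm_num)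
      (by linarith)
    have hm : 1 ≤ mz γ := h4.2.2.1 γ g1.2.2
    have hn : 2 ≤ n := by
      have h5 : n ≠ 1 := by
        rintro rfl
        exact g2 (by rw [hn1]; norm_num)
      omega
    have hW := hP T lam (1 / 2000) γ hT6 hl (by linarith) (by norm_num) (by norm_num) g1.1 g1.2.1
    rw [hn1] at hW
    have hpt := bad_point (v := vv th c1 c2 T (1 / 2 + γ * I)) (B := BB lam T (1 / 2 + γ * I))
      (L := Real.log T) (lam := lam) (be := be) (n := (n : ℝ)) (s := 1 / 10 ^ 7)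
      (η := 2 / 10 ^ 7) (C := C / (lam * Real.log T)) hL g3 (by linarith) a6
      (by exact_mod_cast hn) hW (by
        rw [div_le_iff₀ (by linarith)]
        nlinarith) (by positivity) (by norm_num)
    have h6 := mul_le_mul_of_nonneg_left hpt
      (mul_nonneg (Nat.cast_nonneg (mz γ)) (wt_pos T γ).le : (0 : ℝ) ≤ (mz γ : ℝ) * wt T γ)
    calc (1 - 13 / 10 ^ 7 : ℝ) * ((mz γ : ℝ) * wt T γ)
        = (mz γ : ℝ) * wt T γ * (1 - 13 / 10 ^ 7) := by ring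
      _ ≤ _ := h6
  have h7 : ∑ᶠ γ ∈ Bd, (mz γ : ℝ) * wt T γ ≤ 0.29295 * (cG T * Real.log T) := by
    by_contra hcon
    rw [not_le] at hcon
    have h8 : (1 - 13 / 10 ^ 7 : ℝ) * (0.29295 * (cG T * Real.log T)) <
        (1 - 13 / 10 ^ 7 : ℝ) * ∑ᶠ γ ∈ Bd, (mz γ : ℝ) * wt T γ :=
      mul_lt_mul_of_pos_left hcon (by norm_num)
    have h9 : (0.292949 : ℝ) * (cG T * Real.log T) ≤
        (1 - 13 / 10 ^ 7 : ℝ) * (0.29295 * (cG T * Real.log T)) := by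
      calc (0.292949 : ℝ) * (cG T * Real.log T) ≤
          ((1 - 13 / 10 ^ 7 : ℝ) * 0.29295) * (cG T * Real.log T) :=
            mul_le_mul_of_nonneg_right (by norm_num) hp.le
        _ = _ := by ring
    linarith
  exact h7

end Pool.Agent.Lib.MP_6bc78b_nt.MS.GL.H81
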