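import Pool.Agent.Lib.MP_6bc78b_nt.MS.GL.Iface
import Pool.Agent.Lib.MP_6bc78b_nt.MS.QZ.H17.Liq

/-! Project MS, Part GL, module LIT (after H17/Liq.lean). -/

set_option autoImplicit false

open Complex Filter Topology MeasureTheory

namespace Pool.Agent.Lib.MP_6bc78b_nt.MS.GL.H81

open Pool.Agent.Lib.MP_6bc78b_nt.MS Pool.Agent.Lib.MP_6bc78b_nt.MS.P1
open Pool.Agent.Lib.MP_6bc78b_nt.MS.QZ Pool.Agent.Lib.MP_6bc78b_nt.MS.GL

theorem lit (h1 : MorStatement) (h2 : ChfStatement) (h3 : LevStatement)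
    (h4 : ZfacStatement) : LitStatement := by
  obtain ⟨-, -, -, -, -, -, hfin⟩ := h4
  intro x ε hε
  by_contra hcon
  rw [Filter.not_eventually] at hcon
  obtain ⟨u, hu, hP⟩ := Filter.exists_seq_forall_of_frequently hcon
  let s : ℕ → Finset ℝ := fun n => (hfin (u n)).toFinset
  let w : ℕ → ℝ → ℝ := fun n γ => (mz γ : ℝ) * wt (u n) γ / |cG (u n) * Real.log (u n)|
  let f : ℕ → ℝ → ℝ := fun n γ => X0 (u n) γ
  have hw : ∀ n γ, 0 ≤ w n γ := fun n γ =>
    div_nonneg (mul_nonneg (Nat.cast_nonneg _) (Real.exp_pos _).le) (abs_nonneg _)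
  have hpos : ∀ᶠ n in atTop, 0 < cG (u n) * Real.log (u n) := by
    filter_upwards [hu.eventually_gt_atTop 1] with n hn
    exact mul_pos (QZ.H17.cG_pos hn) (Real.log_pos hn)
  have hmom : ∀ k : ℕ, Tendsto (fun n => ∑ γ ∈ s n, w n γ * f n γ ^ k) atTop (𝓝 (gm k)) := by
    intro k
    refine ((h1 k).comp hu).congr' ?_
    filter_upwards [hpos] with n hn
    simp only [Function.comp_apply]
    rw [finsum_mem_eq_finite_toFinset_sum _ (hfin (u n)), Finset.sum_div]
    refine Finset.sum_congr rfl fun γ _ => ?_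
    simp only [w, f, abs_of_pos hn]
    ring
  have hlim := h3 s w f hw (h2 s w f hw hmom) x
  have hlt : ∀ᶠ n in atTop, ∑ γ ∈ (s n).filter (fun γ => x < f n γ), w n γ < Qf x + ε :=
    hlim.eventually (gt_mem_nhds (by linarith))
  have hgt : ∀ᶠ n in atTop, Qf x - ε < ∑ γ ∈ (s n).filter (fun γ => x < f n γ), w n γ :=
    hlim.eventually (lt_mem_nhds (by linarith))
  obtain ⟨n, hn1, hn2, hn3⟩ := (hpos.and (hlt.and hgt)).exists
  apply hP n
  have hset : {γ | γ ∈ zset (u n) ∧ x < X0 (u n) γ} =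
      (((s n).filter (fun γ => x < f n γ) : Finset ℝ) : Set ℝ) := by
    ext γ
    simp [s, f]
  rw [hset, finsum_mem_coe_finset]
  have e : ∑ γ ∈ (s n).filter (fun γ => x < f n γ), w n γ =
      (∑ γ ∈ (s n).filter (fun γ => x < f n γ), (mz γ : ℝ) * wt (u n) γ) /
        (cG (u n) * Real.log (u n)) := by
    rw [Finset.sum_div]
    refine Finset.sum_congr rfl fun γ _ => ?_
    simp only [w, abs_of_pos hn1]
  rw [e] at hn2 hn3
  rw [div_lt_iff₀ hn1] at hn2
  rw [lt_div_iff₀ hn1] at hn3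
  rw [abs_le]
  constructor <;> linarith

end Pool.Agent.Lib.MP_6bc78b_nt.MS.GL.H81
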